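import Mathlib

/-! Two inequalities for the coefficients of a nonnegative cosine polynomial. -/

set_option autoImplicit false

open Finset Complex ComplexConjugate

namespace Pool.Agent.Lib.MP_4f0d88_nt.PP

theorem es_root_sum {Q : ℕ} {ω : ℂ} (hω : IsPrimitiveRoot ω Q) (k : ℕ) :
    ∑ j ∈ range Q, (ω ^ k) ^ j = if Q ∣ k then (Q : ℂ) else 0 := by
  split_ifs with h
  · rw [(hω.pow_eq_one_iff_dvd k).2 h]; simp
  · have h1 : ω ^ k ≠ 1 := fun e => h ((hω.pow_eq_one_iff_dvd k).1 e)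
    rw [geom_sum_eq h1, ← pow_mul, mul_comm, pow_mul, hω.pow_eq_one, one_pow, sub_self, zero_div]

theorem es_bilin {M : ℕ} {ω : ℂ} (hω : IsPrimitiveRoot ω (2 * M + 1)) (a b : ℕ → ℂ) (L L' : ℝ) :
    ∑ j ∈ range (2 * M + 1), (L + (∑ n ∈ Icc 1 M, a n * (ω ^ j) ^ n).re) *
      (L' + (∑ n ∈ Icc 1 M, b n * (ω ^ j) ^ n).re) =
      (2 * M + 1 : ℕ) * (L * L' + (∑ n ∈ Icc 1 M, a n * conj (b n)).re / 2) := by
  set Q := 2 * M + 1 with hQ
  have hw : ‖ω‖ = 1 := hω.norm'_eq_one (by omega)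
  have h1 : ∀ c : ℕ → ℂ, ∑ j ∈ range Q, ∑ n ∈ Icc 1 M, c n * (ω ^ j) ^ n = 0 := fun c => by
    rw [sum_comm]
    refine sum_eq_zero fun n hn => ?_
    have hn' := mem_Icc.1 hn
    simp only [pow_right_comm ω _ n]
    rw [← mul_sum, es_root_sum hω, if_neg (Nat.not_dvd_of_pos_of_lt (by omega) (by omega)), mul_zero]
  have h2 : ∑ j ∈ range Q, (∑ n ∈ Icc 1 M, a n * (ω ^ j) ^ n) *
      (∑ n ∈ Icc 1 M, b n * (ω ^ j) ^ n) = 0 := by
    simp only [sum_mul_sum]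
    rw [sum_comm]
    refine sum_eq_zero fun n hn => ?_
    rw [sum_comm]
    refine sum_eq_zero fun n' hn' => ?_
    have := mem_Icc.1 hn
    have := mem_Icc.1 hn'
    have e : ∀ j, a n * (ω ^ j) ^ n * (b n' * (ω ^ j) ^ n') = a n * b n' * (ω ^ (n + n')) ^ j :=
      fun j => by ring
    simp only [e]
    rw [← mul_sum, es_root_sum hω, if_neg (Nat.not_dvd_of_pos_of_lt (by omega) (by omega)), mul_zero]
  have h3 : ∑ j ∈ range Q, (∑ n ∈ Icc 1 M, a n * (ω ^ j) ^ n) *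
      conj (∑ n ∈ Icc 1 M, b n * (ω ^ j) ^ n) = Q * ∑ n ∈ Icc 1 M, a n * conj (b n) := by
    simp only [map_sum, sum_mul_sum]
    rw [sum_comm, mul_sum]
    refine sum_congr rfl fun n hn => ?_
    rw [sum_comm]
    have hn1 := mem_Icc.1 hn
    have e : ∀ n' ∈ Icc 1 M, ∑ j ∈ range Q, a n * (ω ^ j) ^ n * conj (b n' * (ω ^ j) ^ n') =
        if n = n' then Q * (a n * conj (b n')) else 0 := fun n' hn' => by
      have hn2 := mem_Icc.1 hn'
      have e1 : ∀ j, conj ((ω ^ j) ^ n') = (ω ^ (Q - n')) ^ j := fun j => by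
        rw [← Complex.inv_eq_conj (by simp [hw])]
        refine inv_eq_of_mul_eq_one_right ?_
        rw [pow_right_comm, ← mul_pow, ← pow_add, Nat.add_sub_cancel' (by omega), hω.pow_eq_one,
          one_pow]
      have e2 : ∀ j, a n * (ω ^ j) ^ n * conj (b n' * (ω ^ j) ^ n') =
          a n * conj (b n') * (ω ^ (n + (Q - n'))) ^ j := fun j => by
        rw [map_mul, e1]; ring
      simp only [e2]
      rw [← mul_sum, es_root_sum hω]
      by_cases h : n = n'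
      · rw [if_pos h, if_pos (by rw [h, Nat.add_sub_cancel' (by omega)]), mul_comm]
      · rw [if_neg h, if_neg, mul_zero]
        rintro ⟨c, hc⟩
        rcases c with _ | _ | c
        · omega
        · omega
        · have : Q * (c + 1 + 1) = Q * c + 2 * Q := by ring
          omega
    rw [sum_congr rfl e, sum_ite_eq, if_pos hn]
  have e : ∀ u v : ℂ, (L + u.re) * (L' + v.re) =
      L * L' + L * v.re + L' * u.re + (u * v).re / 2 + (u * conj v).re / 2 := fun u v => by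
    simp only [mul_re, conj_re, conj_im]; ring
  simp only [e, sum_add_distrib, ← mul_sum, ← sum_div, ← re_sum, h1, h2, h3, sum_const, card_range]
  simp only [zero_re, mul_re, natCast_re, natCast_im, nsmul_eq_mul]
  ring

variable {M : ℕ} {c : ℕ → ℝ} {L : ℝ}

theorem es_coef (h : ∀ z : ℂ, ‖z‖ = 1 → 0 ≤ L + (∑ n ∈ Icc 1 M, (c n : ℂ) * z ^ n).re)
    {k : ℕ} (hk : k ∈ Icc 1 M) : c k ≤ 2 * L := by
  have hω := Complex.isPrimitiveRoot_exp (2 * M + 1) (by omega)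
  set ω := exp (2 * Real.pi * I / ((2 * M + 1 : ℕ) : ℂ))
  have hn : ‖ω‖ = 1 := hω.norm'_eq_one (by omega)
  have h1 := es_bilin hω (fun n => c n) (fun n => if n = k then -1 else 0) L 1
  have h2 : (0 : ℝ) ≤ ∑ j ∈ range (2 * M + 1), (L + (∑ n ∈ Icc 1 M, (c n : ℂ) * (ω ^ j) ^ n).re) *
      (1 + (∑ n ∈ Icc 1 M, (if n = k then (-1 : ℂ) else 0) * (ω ^ j) ^ n).re) := by
    refine sum_nonneg fun j _ => mul_nonneg (h _ (by simp [hn])) ?_
    simp only [ite_mul, zero_mul, sum_ite_eq', if_pos hk, neg_mul, one_mul, neg_re]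
    have := re_le_norm ((ω ^ j) ^ k)
    rw [norm_pow, norm_pow, hn, one_pow, one_pow] at this
    linarith
  rw [h1] at h2
  have h3 := nonneg_of_mul_nonneg_right h2 (by positivity : (0 : ℝ) < (2 * M + 1 : ℕ))
  simp only [apply_ite conj, map_neg, map_one, map_zero, mul_ite, mul_zero, sum_ite_eq', if_pos hk,
    mul_neg, mul_one, neg_re, ofReal_re] at h3
  linarith

theorem es_corr (h : ∀ z : ℂ, ‖z‖ = 1 → 0 ≤ L + (∑ n ∈ Icc 1 M, (c n : ℂ) * z ^ n).re)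
    {p : ℕ} (hp : 0 < p) :
    2 * L ^ 2 + ∑ n ∈ Icc 1 M, c n ^ 2 ≤
      p * (2 * L ^ 2 + ∑ n ∈ (Icc 1 M).filter (p ∣ ·), c n ^ 2) := by
  have hω := Complex.isPrimitiveRoot_exp (2 * M + 1) (by omega)
  set ω := exp (2 * Real.pi * I / ((2 * M + 1 : ℕ) : ℂ))
  have hη := Complex.isPrimitiveRoot_exp p hp.ne'
  set η := exp (2 * Real.pi * I / (p : ℂ))
  have hn : ‖ω‖ = 1 := hω.norm'_eq_one (by omega)
  have hn' : ‖η‖ = 1 := hη.norm'_eq_one hp.ne'
  have h1 : ∀ a : ℕ, 0 ≤ L * L + (∑ n ∈ Icc 1 M, (c n : ℂ) ^ 2 * (η ^ n) ^ a).re / 2 := fun a => by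
    have h2 := es_bilin hω (fun n => c n * (η ^ a) ^ n) (fun n => c n) L L
    have h3 : (0 : ℝ) ≤ ∑ j ∈ range (2 * M + 1),
        (L + (∑ n ∈ Icc 1 M, (c n : ℂ) * (η ^ a) ^ n * (ω ^ j) ^ n).re) *
        (L + (∑ n ∈ Icc 1 M, (c n : ℂ) * (ω ^ j) ^ n).re) := by
      refine sum_nonneg fun j _ => mul_nonneg ?_ (h _ (by simp [hn]))
      simpa only [mul_pow, mul_assoc] using h (η ^ a * ω ^ j) (by simp [hn, hn'])
    rw [h2] at h3
    have h4 := nonneg_of_mul_nonneg_right h3 (by positivity : (0 : ℝ) < (2 * M + 1 : ℕ))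
    have e : ∀ n, (c n : ℂ) * (η ^ a) ^ n * conj (c n : ℂ) = (c n : ℂ) ^ 2 * (η ^ n) ^ a := fun n => by
      rw [conj_ofReal, pow_right_comm]; ring
    simpa only [e] using h4
  have h5 := single_le_sum (f := fun a : ℕ =>
    L * L + (∑ n ∈ Icc 1 M, (c n : ℂ) ^ 2 * (η ^ n) ^ a).re / 2) (fun a _ => h1 a) (mem_range.2 hp)
  have h6 : ∑ a ∈ range p, ∑ n ∈ Icc 1 M, (c n : ℂ) ^ 2 * (η ^ n) ^ a =
      ((p * ∑ n ∈ (Icc 1 M).filter (p ∣ ·), c n ^ 2 : ℝ) : ℂ) := by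
    rw [sum_comm, sum_filter, mul_sum]
    push_cast
    refine sum_congr rfl fun n _ => ?_
    rw [← mul_sum, es_root_sum hη]
    split_ifs <;> simp [mul_comm]
  rw [sum_add_distrib, ← sum_div, ← re_sum, h6, ofReal_re, sum_const, card_range, nsmul_eq_mul] at h5
  have h7 : (∑ n ∈ Icc 1 M, (c n : ℂ) ^ 2 * (η ^ n) ^ 0).re = ∑ n ∈ Icc 1 M, c n ^ 2 := by
    rw [← ofReal_re (∑ n ∈ Icc 1 M, c n ^ 2)]
    congr 1
    push_cast
    simp
  rw [h7] at h5
  nlinarith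

end Pool.Agent.Lib.MP_4f0d88_nt.PP
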