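import Pool.Agent.Lib.MP_4f0d88_nt.PP.Defs
import Pool.Agent.Lib.MP_4f0d88_nt.PP.Pos

/-! Many exponents of a short pure product are divisible by a given prime. -/

set_option autoImplicit false

namespace Pool.Agent.Lib.MP_4f0d88_nt.PP

open Polynomial Finset

variable {ι : Type} {a : ι → ℕ} {ρ : ℝ} {K M : ℕ}

/-- Coefficients of the truncated logarithm. -/
noncomputable def cc (a : ι → ℕ) (ρ : ℝ) (K : ℕ) (S : Finset ι) (n : ℕ) : ℝ :=
  ∑ i ∈ S, ∑ k ∈ Ioc 0 K, if k * a i = n then ρ ^ n / k else 0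

theorem cc_nonneg (h0 : 0 ≤ ρ) (S : Finset ι) (n : ℕ) : 0 ≤ cc a ρ K S n :=
  sum_nonneg fun _ _ => sum_nonneg fun _ _ => by split_ifs <;> positivity

theorem cc_sum (hM : ∀ i, ∀ k ∈ Ioc 0 K, k * a i ∈ Icc 1 M) (S : Finset ι) (f : ℕ → ℝ) :
    ∑ n ∈ Icc 1 M, cc a ρ K S n * f n =
      ∑ i ∈ S, ∑ k ∈ Ioc 0 K, ρ ^ (k * a i) / k * f (k * a i) := by
  simp only [cc, sum_mul, ite_mul, zero_mul]
  rw [sum_comm]
  refine sum_congr rfl fun i _ => ?_
  rw [sum_comm]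
  exact sum_congr rfl fun k hk => by rw [sum_ite_eq, if_pos (hM i k hk)]

theorem cc_low (h0 : 0 ≤ ρ) (hM : ∀ i, ∀ k ∈ Ioc 0 K, k * a i ∈ Icc 1 M) (hK : 0 < K)
    (hh : ∀ i, 1 / 2 ≤ ρ ^ (2 * a i)) (S : Finset ι) :
    (#S : ℝ) / 2 ≤ ∑ n ∈ Icc 1 M, cc a ρ K S n ^ 2 := by
  have h1 : (1 : ℕ) ∈ Ioc 0 K := mem_Ioc.2 ⟨one_pos, hK⟩
  simp only [sq]
  rw [cc_sum hM, div_eq_mul_one_div, ← nsmul_eq_mul, ← sum_const]
  refine sum_le_sum fun i hi => le_trans ?_ (single_le_sum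
    (f := fun k : ℕ => ρ ^ (k * a i) / k * cc a ρ K S (k * a i))
    (fun k _ => mul_nonneg (by positivity) (cc_nonneg h0 _ _)) h1)
  have h2 : ρ ^ a i ≤ cc a ρ K S (a i) := by
    refine le_trans ?_ (single_le_sum (f := fun j => ∑ k ∈ Ioc 0 K,
      if k * a j = a i then ρ ^ a i / k else 0)
      (fun _ _ => sum_nonneg fun _ _ => by split_ifs <;> positivity) hi)
    refine le_trans ?_ (single_le_sum (f := fun k : ℕ => if k * a i = a i then ρ ^ a i / k else 0)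
      (fun _ _ => by split_ifs <;> positivity) h1)
    simp
  have h3 := hh i
  rw [two_mul, pow_add] at h3
  simp only [one_mul, Nat.cast_one, div_one]
  exact h3.trans (mul_le_mul_of_nonneg_left h2 (by positivity))

theorem cc_dvd (h0 : 0 ≤ ρ) (h1 : ρ ≤ 1) (ha : ∀ i, 0 < a i) {p : ℕ} (hp : p.Prime) {S : Finset ι}
    (hS : ∀ i ∈ S, ¬ p ∣ a i) (n : ℕ) : cc a ρ K S (p * n) ≤ cc a ρ K S n / p := by
  rw [cc, cc, sum_div]
  refine sum_le_sum fun i hi => ?_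
  have hp0 := hp.pos
  by_cases h : ∃ k ∈ Ioc 0 K, k * a i = p * n
  · obtain ⟨k, hk, e⟩ := h
    obtain ⟨k', rfl⟩ := (hp.dvd_mul.1 (e ▸ dvd_mul_right p n)).resolve_right (hS i hi)
    have hk1 := mem_Ioc.1 hk
    have hk' : 0 < k' := Nat.pos_of_mul_pos_left hk1.1
    have e' : k' * a i = n := Nat.eq_of_mul_eq_mul_left hp0 (by rw [← mul_assoc, e])
    rw [sum_eq_single_of_mem _ hk fun k _ hne => if_neg fun e2 =>
      hne (Nat.eq_of_mul_eq_mul_right (ha i) (e2.trans e.symm)), if_pos e]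
    refine le_trans ?_ (div_le_div_of_nonneg_right (single_le_sum
      (f := fun k : ℕ => if k * a i = n then ρ ^ n / k else 0)
      (fun _ _ => by split_ifs <;> positivity)
      (mem_Ioc.2 ⟨hk', (Nat.le_mul_of_pos_left _ hp0).trans hk1.2⟩)) (by positivity))
    simp only [if_pos e', div_div]
    rw [Nat.cast_mul, mul_comm (p : ℝ)]
    exact div_le_div_of_nonneg_right
      (pow_le_pow_of_le_one h0 h1 (Nat.le_mul_of_pos_left _ hp0)) (by positivity)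
  · rw [sum_eq_zero fun k hk => if_neg fun e => h ⟨k, hk, e⟩]
    exact div_nonneg (sum_nonneg fun _ _ => by split_ifs <;> positivity) (by positivity)

theorem sum_dil {q : ℕ} (hq : 0 < q) {T : Finset ℕ} (f : ℕ → ℝ) (U : Finset ℕ)
    (h : ∀ k ∈ U, k * q ∈ T) : ∑ k ∈ U, f (k * q) ^ 2 ≤ ∑ n ∈ T, f n ^ 2 := by
  rw [← sum_image (f := fun n => f n ^ 2) (g := fun k => k * q)
    fun x _ y _ e => Nat.eq_of_mul_eq_mul_right hq e]
  exact sum_le_sum_of_subset_of_nonneg (image_subset_iff.2 h) fun _ _ _ => sq_nonneg _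

theorem cc_up (h0 : 0 ≤ ρ) (h1 : ρ ≤ 1) (ha : ∀ i, 0 < a i)
    (hM : ∀ i, ∀ k ∈ Ioc 0 K, k * a i ∈ Icc 1 M) {S : Finset ι} (hK : #S ≤ K) {L : ℝ} (hL : 1 ≤ L)
    (hS : Real.log (#S) + 1 ≤ L) (hc : ∀ n ∈ Icc 1 M, cc a ρ K S n ≤ 2 * L) :
    ∑ n ∈ Icc 1 M, cc a ρ K S n ^ 2 ≤ 5 * L ^ 2 * #S := by
  rcases S.eq_empty_or_nonempty with rfl | hne
  · simp [cc]
  have hm : 0 < #S := card_pos.2 hne
  have hm' : (0 : ℝ) < #S := by exact_mod_cast hm
  set T := ∑ n ∈ Icc 1 M, cc a ρ K S n ^ 2 with hT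
  have h2 : ∑ k ∈ Ioc 0 (#S), (k : ℝ)⁻¹ ≤ L := by
    have := harmonic_le_one_add_log (#S)
    rw [harmonic_eq_sum_Icc, show Icc 1 (#S) = Ioc 0 (#S) from rfl] at this
    push_cast at this
    linarith
  have h3 : ∑ k ∈ Ioc (#S) K, ((k : ℝ) ^ 2)⁻¹ ≤ (#S : ℝ)⁻¹ := by
    have := sum_Ioc_inv_sq_le_sub (α := ℝ) hm.ne' hK
    have : (0 : ℝ) ≤ (K : ℝ)⁻¹ := by positivity
    linarith
  have h4 : ∀ i ∈ S, ∑ k ∈ Ioc 0 K, ρ ^ (k * a i) / k * cc a ρ K S (k * a i) ≤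
      2 * L ^ 2 + 1 / 2 + T / (2 * #S) := fun i _ => by
    have hb : ∀ k : ℕ, ρ ^ (k * a i) / k * cc a ρ K S (k * a i) ≤
        (k : ℝ)⁻¹ * cc a ρ K S (k * a i) := fun k => by
      rw [← one_div]
      exact mul_le_mul_of_nonneg_right (div_le_div_of_nonneg_right (pow_le_one₀ h0 h1)
        (by positivity)) (cc_nonneg h0 _ _)
    refine (sum_le_sum fun k _ => hb k).trans ?_
    rw [← sum_Ioc_consecutive _ (Nat.zero_le _) hK]
    have h5 : ∑ k ∈ Ioc 0 (#S), (k : ℝ)⁻¹ * cc a ρ K S (k * a i) ≤ L * (2 * L) := by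
      refine le_trans (sum_le_sum fun k hk => mul_le_mul_of_nonneg_left
        (hc _ (hM i k (Ioc_subset_Ioc_right hK hk))) (by positivity)) ?_
      rw [← sum_mul]
      exact mul_le_mul_of_nonneg_right h2 (by linarith)
    have h6 : ∑ k ∈ Ioc (#S) K, (k : ℝ)⁻¹ * cc a ρ K S (k * a i) ≤
        ∑ k ∈ Ioc (#S) K, (#S / 2 * ((k : ℝ) ^ 2)⁻¹ + cc a ρ K S (k * a i) ^ 2 / (2 * #S)) := by
      refine sum_le_sum fun k _ => ?_
      rw [← inv_pow, ← sub_nonneg]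
      have : #S / 2 * ((k : ℝ)⁻¹) ^ 2 + cc a ρ K S (k * a i) ^ 2 / (2 * #S) -
          (k : ℝ)⁻¹ * cc a ρ K S (k * a i) =
          (#S * (k : ℝ)⁻¹ - cc a ρ K S (k * a i)) ^ 2 / (2 * #S) := by
        generalize (k : ℝ)⁻¹ = u
        field_simp
        ring
      rw [this]
      positivity
    rw [sum_add_distrib, ← mul_sum, ← sum_div] at h6
    have h7 := sum_dil (ha i) (cc a ρ K S) (Ioc (#S) K)
      fun k hk => hM i k (Ioc_subset_Ioc_left (Nat.zero_le _) hk)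
    have h8 := div_le_div_of_nonneg_right h7 (by positivity : (0 : ℝ) ≤ 2 * #S)
    have h9 : (#S : ℝ) / 2 * ∑ k ∈ Ioc (#S) K, ((k : ℝ) ^ 2)⁻¹ ≤ 1 / 2 := by
      refine (mul_le_mul_of_nonneg_left h3 (by positivity)).trans (le_of_eq ?_)
      field_simp
    nlinarith
  have h10 : T ≤ #S * (2 * L ^ 2 + 1 / 2 + T / (2 * #S)) := by
    rw [← nsmul_eq_mul, ← sum_const]
    refine le_trans (le_of_eq ?_) (sum_le_sum h4)
    rw [← cc_sum hM, hT]
    simp only [sq]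
  have h11 : (#S : ℝ) * (T / (2 * #S)) = T / 2 := by field_simp
  have h12 : 1 ≤ L ^ 2 := one_le_pow₀ hL
  nlinarith

theorem cc_pos [Fintype ι] (h0 : 0 ≤ ρ) (h1 : ρ < 1) (ha : ∀ i, 0 < a i)
    (hM : ∀ i, ∀ k ∈ Ioc 0 K, k * a i ∈ Icc 1 M) (hK : Fintype.card ι * (ρ ^ K * (1 - ρ)⁻¹) ≤ 1)
    {L : ℝ} (hL : Real.log (l1 (pp univ a)) + 1 ≤ L) (z : ℂ) (hz : ‖z‖ = 1) :
    0 ≤ L + (∑ n ∈ Icc 1 M, (cc a ρ K univ n : ℂ) * z ^ n).re := by
  have hw : ∀ i, ‖((ρ : ℂ) * z) ^ a i‖ ≤ ρ := fun i => by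
    rw [norm_pow, norm_mul, hz, mul_one, Complex.norm_real, Real.norm_of_nonneg h0]
    exact pow_le_of_le_one h0 h1.le (ha i).ne'
  have hne : ∀ i, ‖1 - ((ρ : ℂ) * z) ^ a i‖ ≠ 0 := fun i e => by
    have := hw i
    rw [← sub_eq_zero.1 (norm_eq_zero.1 e), norm_one] at this
    linarith
  have h2 : ∏ i, ‖1 - ((ρ : ℂ) * z) ^ a i‖ ≤ (l1 (pp univ a) : ℝ) := by
    have e : ∏ i, (1 - ((ρ : ℂ) * z) ^ a i) = aeval ((ρ : ℂ) * z) (pp univ a) := by
      simp [pp]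
    rw [← norm_prod, e, aeval_def, eval₂_eq_sum, Polynomial.sum_def, l1]
    push_cast
    refine (norm_sum_le _ _).trans (sum_le_sum fun n _ => ?_)
    rw [norm_mul, norm_pow, norm_mul, hz, mul_one, Complex.norm_real, Real.norm_of_nonneg h0]
    simp only [algebraMap_int_eq, eq_intCast, Complex.norm_intCast]
    exact mul_le_of_le_one_right (abs_nonneg _) (pow_le_one₀ h0 h1.le)
  have h3 := Real.log_le_log (prod_pos fun i _ => (norm_nonneg _).lt_of_ne' (hne i)) h2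
  rw [Real.log_prod fun i _ => hne i] at h3
  have h4 : ∀ i, -(ρ ^ K * (1 - ρ)⁻¹) ≤ Real.log ‖1 - ((ρ : ℂ) * z) ^ a i‖ +
      ∑ k ∈ Ioc 0 K, ρ ^ (k * a i) / k * (z ^ (k * a i)).re := fun i => by
    have hw' := hw i
    have h5 := Complex.norm_log_sub_logTaylor_le K (z := -((ρ : ℂ) * z) ^ a i)
      (by rw [norm_neg]; linarith)
    have h6 : Complex.logTaylor (K + 1) (-((ρ : ℂ) * z) ^ a i) =
        -∑ k ∈ Ioc 0 K, ((ρ ^ (k * a i) / k : ℝ) : ℂ) * z ^ (k * a i) := by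
      rw [Complex.logTaylor, range_eq_Ico, sum_eq_sum_Ico_succ_bot (Nat.succ_pos K),
        ← sum_neg_distrib, show Ico (0 + 1) (K + 1) = Ioc 0 K from by ext; simp; omega]
      simp only [Nat.cast_zero, div_zero, zero_add]
      refine sum_congr rfl fun k _ => ?_
      push_cast
      rw [neg_pow (_ ^ a i), pow_succ, ← pow_mul, mul_comm (a i), mul_pow]
      have : ((-1 : ℂ)) ^ k * (-1) ^ k = 1 := by rw [← mul_pow]; simp
      linear_combination (-((ρ : ℂ) ^ (k * a i) * z ^ (k * a i) / k)) * this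
    have h7 := (Complex.abs_re_le_norm _).trans h5
    rw [h6, sub_neg_eq_add, ← sub_eq_add_neg, Complex.add_re, Complex.log_re, Complex.re_sum,
      norm_neg] at h7
    simp only [Complex.re_ofReal_mul] at h7
    refine le_trans (neg_le_neg ?_) (abs_le.1 h7).1
    refine (div_le_self (by have := sub_pos.2 (hw'.trans_lt h1); positivity)
      (by linarith [(Nat.cast_nonneg K : (0 : ℝ) ≤ K)])).trans ?_
    refine mul_le_mul ((pow_le_pow_left₀ (norm_nonneg _) hw' _).trans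
      (pow_le_pow_of_le_one h0 h1.le (Nat.le_succ K))) (inv_anti₀ (by linarith) (by linarith))
      (by have := sub_pos.2 (hw'.trans_lt h1); positivity) (by positivity)
  have h8 := sum_le_sum fun i (_ : i ∈ univ) => h4 i
  rw [sum_add_distrib, ← cc_sum hM univ fun n => (z ^ n).re, sum_const, card_univ,
    nsmul_eq_mul] at h8
  rw [Complex.re_sum]
  simp only [Complex.re_ofReal_mul]
  linarith

theorem analytic {ι : Type} [Fintype ι] [DecidableEq ι] (a : ι → ℕ) (ha : ∀ j, 0 < a j) {p : ℕ}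
    (hp : p.Prime) (h4 : 4 ≤ p) {L : ℝ} (h1 : Real.log (l1 (pp univ a)) + 1 ≤ L)
    (h2 : Real.log (Fintype.card ι) + 1 ≤ L) :
    (#{j | ¬ p ∣ a j} : ℝ) ≤ 8 * p * L ^ 2 * (1 + 6 * #{j | p ∣ a j}) := by
  set D := ∑ i, a i with hD
  have hD' : ∀ i, a i ≤ D := fun i => single_le_sum (fun _ _ => Nat.zero_le _) (mem_univ i)
  set η : ℝ := 1 / (4 * (D + 1)) with hη
  have hη0 : 0 < η := by positivity
  have hη1 : η * (4 * (D + 1)) = 1 := by rw [hη]; field_simp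
  have hD0 : (0 : ℝ) ≤ D := Nat.cast_nonneg _
  have hη2 : η ≤ 1 := by nlinarith
  have r0 : 0 ≤ 1 - η := by linarith
  have r1 : 1 - η < 1 := by linarith
  have hh : ∀ i, 1 / 2 ≤ (1 - η) ^ (2 * a i) := fun i => by
    have h := one_add_mul_le_pow (a := -η) (by linarith) (2 * a i)
    have : (a i : ℝ) ≤ D := by exact_mod_cast hD' i
    rw [← sub_eq_add_neg] at h
    push_cast at h
    nlinarith
  obtain ⟨k, hk⟩ := exists_pow_lt_of_lt_one (x := η / (Fintype.card ι + 1)) (by positivity) r1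
  set K := k + Fintype.card ι + 1 with hKd
  have hK : Fintype.card ι * ((1 - η) ^ K * (1 - (1 - η))⁻¹) ≤ 1 := by
    have h := (pow_le_pow_of_le_one r0 r1.le (by omega : k ≤ K)).trans hk.le
    rw [le_div_iff₀ (by positivity)] at h
    rw [sub_sub_cancel, ← mul_assoc, ← div_eq_mul_inv, div_le_one hη0]
    have : 0 ≤ (1 - η) ^ K := by positivity
    nlinarith
  have hM : ∀ i, ∀ k ∈ Ioc 0 K, k * a i ∈ Icc 1 (K * D) := fun i k hk =>
    mem_Icc.2 ⟨Nat.mul_pos (mem_Ioc.1 hk).1 (ha i), Nat.mul_le_mul (mem_Ioc.1 hk).2 (hD' i)⟩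
  have hpos := cc_pos r0 r1 ha hM hK h1
  set I : Finset ι := {j | p ∣ a j} with hI
  set J : Finset ι := {j | ¬ p ∣ a j} with hJ
  have hs : ∀ n, cc a (1 - η) K univ n = cc a (1 - η) K I n + cc a (1 - η) K J n := fun n =>
    (sum_filter_add_sum_filter_not _ _ _).symm
  have hL : 1 ≤ L := by linarith [Real.log_natCast_nonneg (Fintype.card ι)]
  have hI1 : #I ≤ Fintype.card ι := card_le_univ I
  have hI2 : Real.log (#I) + 1 ≤ L := by
    rcases Nat.eq_zero_or_pos (#I) with h | h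
    · simpa [h] using hL
    · have := Real.log_le_log (by exact_mod_cast h : (0 : ℝ) < #I)
        (by exact_mod_cast hI1 : (#I : ℝ) ≤ Fintype.card ι)
      linarith
  have t1 := cc_up r0 r1.le ha hM (S := I) (by omega) hL hI2 fun n hn => by
    have := es_coef hpos hn
    have := cc_nonneg (a := a) (K := K) r0 J n
    linarith [hs n]
  have t2 := cc_low r0 hM (by omega) hh J
  have t3 := es_corr hpos hp.pos
  set T := ∑ n ∈ Icc 1 (K * D), cc a (1 - η) K J n ^ 2 with hT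
  have hp4 : (4 : ℝ) ≤ p := by exact_mod_cast h4
  have t4 : T ≤ ∑ n ∈ Icc 1 (K * D), cc a (1 - η) K univ n ^ 2 := sum_le_sum fun n _ =>
    pow_le_pow_left₀ (cc_nonneg r0 _ _) (by linarith [hs n, cc_nonneg (a := a) (K := K) r0 I n]) 2
  have t5 : ∑ n ∈ (Icc 1 (K * D)).filter (p ∣ ·), cc a (1 - η) K J n ^ 2 ≤ T / p ^ 2 := by
    have hsub : (Icc 1 (K * D)).filter (p ∣ ·) ⊆ (Icc 1 (K * D)).image (p * ·) := fun n hn => by
      obtain ⟨hn1, m, rfl⟩ := mem_filter.1 hn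
      have := mem_Icc.1 hn1
      exact mem_image.2 ⟨m, mem_Icc.2 ⟨Nat.pos_of_mul_pos_left this.1,
        (Nat.le_mul_of_pos_left _ hp.pos).trans this.2⟩, rfl⟩
    refine (sum_le_sum_of_subset_of_nonneg hsub fun _ _ _ => sq_nonneg _).trans ?_
    rw [sum_image fun x _ y _ e => Nat.eq_of_mul_eq_mul_left hp.pos e, hT, sum_div]
    refine sum_le_sum fun n _ => ?_
    rw [← div_pow]
    exact pow_le_pow_left₀ (cc_nonneg r0 _ _)
      (cc_dvd r0 r1.le ha hp (fun i hi => (mem_filter.1 hi).2) n) 2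
  have t6 : ∑ n ∈ (Icc 1 (K * D)).filter (p ∣ ·), cc a (1 - η) K univ n ^ 2 ≤
      2 * (5 * L ^ 2 * #I) + 2 * (T / p ^ 2) := by
    have t7 := (sum_le_sum_of_subset_of_nonneg (filter_subset (p ∣ ·) (Icc 1 (K * D)))
      fun n _ _ => sq_nonneg (cc a (1 - η) K I n)).trans t1
    refine le_trans ?_ (add_le_add (mul_le_mul_of_nonneg_left t7 zero_le_two)
      (mul_le_mul_of_nonneg_left t5 zero_le_two))
    rw [← mul_add, ← sum_add_distrib, mul_sum _ _ (2 : ℝ)]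
    refine sum_le_sum fun n _ => ?_
    rw [hs]
    nlinarith [sq_nonneg (cc a (1 - η) K I n - cc a (1 - η) K J n)]
  have hT0 : 0 ≤ T := sum_nonneg fun _ _ => sq_nonneg _
  have t8 : (p : ℝ) * (T / p ^ 2) ≤ T / 4 := by
    rw [show (p : ℝ) * (T / p ^ 2) = T / p by field_simp]
    exact div_le_div_of_nonneg_left hT0 (by norm_num) hp4
  have t9 := mul_le_mul_of_nonneg_left t6 (by linarith : (0 : ℝ) ≤ p)
  have t10 : 0 ≤ (p : ℝ) * L ^ 2 * #I := by positivity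
  nlinarith [sq_nonneg L]

end Pool.Agent.Lib.MP_4f0d88_nt.PP
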