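import Pool.Agent.Lib.MP_778b46_nt.Sieve

/-! An upper bound for the number of primes in an interval. -/

set_option autoImplicit false

namespace Pool.Agent.Lib.MP_4f0d88_nt.PP

open Finset Pool.Agent.Lib.MP_778b46_nt

/-- Selberg's sieve of level `R`. -/
theorem primes_Ioc (x Y R : ℕ) (hR : 1 ≤ R) (hx : R ≤ x) :
    (#{p ∈ Ioc x (x + Y) | p.Prime} : ℝ) ≤ Y / Real.log (R + 1) + R ^ 4 := by
  set P := Nat.primesLE R with hPdef
  have hP : ∀ l ∈ P, l.Prime := fun l hl => Nat.prime_of_mem_primesLE hl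
  have hR' : (1 : ℝ) ≤ R := by exact_mod_cast hR
  have hL : 0 < Real.log (R + 1) := Real.log_pos (by linarith)
  have hg : Real.log (R + 1) ≤ gg P R := by
    have := log_le_gg_mul ∅ P R (by simp) hP fun l hl hlR => Or.inr (Nat.mem_primesLE.mpr ⟨hlR, hl⟩)
    simpa [mert] using this
  have hg1 := one_le_gg hP hR
  have h1 : (#{p ∈ Ioc x (x + Y) | p.Prime} : ℝ) ≤ ∑ s ∈ Ioc (x : ℤ) (x + Y), nu P R s := by
    calc _ = ∑ p ∈ (Ioc x (x + Y)).filter Nat.Prime, nu P R (p : ℤ) := by
          rw [card_eq_sum_ones, Nat.cast_sum]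
          refine sum_congr rfl fun p hp => ?_
          obtain ⟨hp1, hp2⟩ := mem_filter.mp hp
          rw [nu_eq_one hP hR, Nat.cast_one]
          intro l hl hd
          rw [Int.natCast_dvd_natCast, Nat.prime_dvd_prime_iff_eq (hP l hl) hp2] at hd
          have := Nat.le_of_mem_primesLE hl
          have := (mem_Ioc.mp hp1).1
          omega
      _ = ∑ t ∈ ((Ioc x (x + Y)).filter Nat.Prime).image (fun p : ℕ => (p : ℤ)), nu P R t := by
          rw [sum_image fun a _ b _ h => by exact_mod_cast h]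
      _ ≤ _ := by
          refine sum_le_sum_of_subset_of_nonneg ?_ fun _ _ _ => nu_nonneg _
          intro t ht
          obtain ⟨p, hp, rfl⟩ := mem_image.mp ht
          have := mem_Ioc.mp (mem_filter.mp hp).1
          rw [mem_Ioc]; omega
  have h2 : ∑ s ∈ Ioc (x : ℤ) (x + Y), (nu P R s - 1 / gg P R) =
      (∑ U ∈ P.powerset.erase ∅, beta P R U * ∑ s ∈ Ioc (x : ℤ) (x + Y), ∏ l ∈ U, ps l s) /
        gg P R ^ 2 := by
    simp only [nu_sub hP hR, mul_sum]
    rw [← sum_div, sum_comm]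
  have h3 : ∑ U ∈ P.powerset.erase ∅, beta P R U * ∑ s ∈ Ioc (x : ℤ) (x + Y), ∏ l ∈ U, ps l s ≤
      (R : ℝ) ^ 2 * R ^ 2 := by
    refine le_trans ?_ (mul_le_mul_of_nonneg_right ((sum_le_sum_of_subset_of_nonneg
      (erase_subset ∅ _) fun _ _ _ => abs_nonneg _).trans (sum_abs_beta_le hP)) (by positivity))
    rw [sum_mul]
    refine sum_le_sum fun U hU => (le_abs_self _).trans ?_
    obtain ⟨hU0, hU1⟩ := mem_erase.1 hU
    by_cases hb : beta P R U = 0
    · simp [hb]
    rw [abs_mul]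
    refine mul_le_mul_of_nonneg_left ?_ (abs_nonneg _)
    have h4 := ortho hP (mem_powerset.1 hU1) (empty_subset P) 0 0 x Y
    simp only [add_zero, prod_empty, mul_one, if_neg hU0, mul_zero, sub_zero, Nat.cast_one] at h4
    exact h4.trans (by exact_mod_cast prod_le_of_beta_ne hP hb)
  rw [sum_sub_distrib, sum_const, Int.card_Ioc, add_sub_cancel_left, Int.toNat_natCast,
    nsmul_eq_mul] at h2
  have h5 := (div_le_div_of_nonneg_right h3 (sq_nonneg (gg P R))).trans
    (div_le_self (by positivity) (one_le_pow₀ hg1))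
  have h6 : Y * (1 / gg P R) ≤ Y / Real.log (R + 1) := by
    rw [mul_one_div]
    gcongr
  nlinarith

end Pool.Agent.Lib.MP_4f0d88_nt.PP
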