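import Mathlib

/-! Pure products and their length. -/

set_option autoImplicit false

namespace Pool.Agent.Lib.MP_4f0d88_nt.PP

open Polynomial Finset

/-- The sum of the absolute values of the coefficients. -/
def l1 (f : ℤ[X]) : ℤ := ∑ n ∈ f.support, |f.coeff n|

/-- A pure product. -/
noncomputable def pp {ι : Type} (I : Finset ι) (a : ι → ℕ) : ℤ[X] := ∏ i ∈ I, (1 - X ^ a i)

end Pool.Agent.Lib.MP_4f0d88_nt.PP
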