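import Pool.Agent.Lib.MP_4f0d88_nt.PP.Nw

/-! Differences and residue classes. -/

set_option autoImplicit false

namespace Pool.Agent.Lib.MP_4f0d88_nt.PP

open Polynomial Finset

theorem lam_shift (b : ℕ) (f φ : ℤ[X]) : lam (X ^ b * f) φ = lam f (taylor (b : ℤ) φ) := by
  induction f using Polynomial.induction_on' with
  | add f g h1 h2 => simp only [mul_add, map_add, LinearMap.add_apply, h1, h2]
  | monomial n c => rw [X_pow_mul_monomial, lam_mono, lam_mono, taylor_eval, Nat.cast_add]

theorem lam_C (f : ℤ[X]) (c : ℤ) : lam f (C c) = c * f.eval 1 := by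
  rw [lam_apply, eval_eq_sum, Polynomial.sum, mul_sum]
  exact sum_congr rfl fun n _ => by simp [mul_comm]

theorem lam_step (b : ℕ) (f φ : ℤ[X]) :
    lam ((1 - X ^ b) * f) φ = lam f (φ - taylor (b : ℤ) φ) := by
  rw [sub_mul, one_mul, map_sub, LinearMap.sub_apply, lam_shift, map_sub]

variable {ι : Type} [DecidableEq ι]

theorem dvd_lam (I : Finset ι) (b : ι → ℕ) (Z φ : ℤ[X]) :
    (∏ i ∈ I, (b i : ℤ)) ∣ lam (pp I b * Z) φ := by
  induction I using Finset.induction_on generalizing φ with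
  | empty => simp
  | insert i I hi ih =>
    obtain ⟨ψ, h⟩ := sub_dvd_eval_sub X (X + C (b i : ℤ)) (φ.map C)
    rw [eval_map, eval_map, eval₂_C_X, ← comp, ← taylor_apply, sub_add_cancel_left, ← C_neg,
      ← smul_eq_C_mul] at h
    rw [pp, prod_insert hi, prod_insert hi, mul_assoc, lam_step, h, map_smul, smul_eq_mul, neg_mul]
    exact (mul_dvd_mul_left _ (ih ψ)).neg_right

theorem lam_top (I : Finset ι) (b : ι → ℕ) (Z : ℤ[X]) {φ : ℤ[X]} (h : φ.natDegree ≤ #I) :
    lam (pp I b * Z) φ =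
      (-1) ^ #I * (#I).factorial * (∏ i ∈ I, (b i : ℤ)) * φ.coeff #I * Z.eval 1 := by
  induction I using Finset.induction_on generalizing φ with
  | empty =>
    rw [eq_C_of_natDegree_le_zero h, lam_C]
    simp [pp]
  | insert i I hi ih =>
    rw [card_insert_of_notMem hi] at h ⊢
    have h1 : (φ - taylor (b i : ℤ) φ).natDegree ≤ #I := natDegree_le_iff_coeff_eq_zero.2 fun n hn => by
      rw [coeff_sub, taylor_coeff, eq_C_of_natDegree_le_zero
        ((natDegree_hasseDeriv_le φ n).trans (by omega)), eval_C, hasseDeriv_coeff]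
      simp
    have h2 : (φ - taylor (b i : ℤ) φ).coeff #I = -((#I + 1) * b i * φ.coeff (#I + 1)) := by
      rw [coeff_sub, taylor_coeff, eq_X_add_C_of_natDegree_le_one
        ((natDegree_hasseDeriv_le φ #I).trans (by omega)), hasseDeriv_coeff, hasseDeriv_coeff]
      simp [add_comm 1]
      ring
    rw [pp, prod_insert hi, prod_insert hi, mul_assoc, lam_step, ← pp, ih h1, h2, Nat.factorial_succ]
    push_cast
    ring

variable {p : ℕ}

/-- A polynomial put together from its residue classes. -/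
noncomputable def glue (p : ℕ) (F : ℕ → ℤ[X]) : ℤ[X] := ∑ r ∈ range p, X ^ r * expand ℤ p (F r)

theorem exists_glue (hp : 0 < p) (f : ℤ[X]) : ∃ F, f = glue p F := by
  induction f using Polynomial.induction_on' with
  | add f g h1 h2 =>
    obtain ⟨F, rfl⟩ := h1
    obtain ⟨G, rfl⟩ := h2
    exact ⟨F + G, by simp [glue, mul_add, sum_add_distrib]⟩
  | monomial n c =>
    refine ⟨fun r => if r = n % p then monomial (n / p) c else 0, ?_⟩
    rw [glue, sum_eq_single_of_mem (n % p) (mem_range.2 (Nat.mod_lt _ hp)) fun r _ h => by simp [h]]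
    simp only [if_true]
    rw [expand_monomial, X_pow_mul_monomial, Nat.div_add_mod']

theorem coeff_glue (F : ℕ → ℤ[X]) {r : ℕ} (hr : r < p) (n : ℕ) :
    (glue p F).coeff (r + p * n) = (F r).coeff n := by
  have hp : 0 < p := by omega
  rw [glue, finsetSum_coeff, sum_eq_single_of_mem r (mem_range.2 hr) fun t ht h => ?_,
    add_comm r, coeff_X_pow_mul, coeff_expand_mul' hp]
  rw [coeff_X_pow_mul', coeff_expand hp]
  split_ifs with h1 h2
  · have h3 := ((Nat.modEq_iff_dvd' h1).2 h2)
    rw [Nat.ModEq, Nat.add_mul_mod_self_left, Nat.mod_eq_of_lt hr,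
      Nat.mod_eq_of_lt (mem_range.1 ht)] at h3
    exact (h h3).elim
  · rfl
  · rfl

theorem l1_glue (F : ℕ → ℤ[X]) : ∑ r ∈ range p, l1 (F r) ≤ l1 (glue p F) := by
  have h : ∑ r ∈ range p, l1 (F r) = ∑ x ∈ (range p).sigma fun r => (F r).support,
      |(glue p F).coeff (x.1 + p * x.2)| := by
    rw [sum_sigma]
    exact sum_congr rfl fun r hr => sum_congr rfl fun n _ => by rw [coeff_glue F (mem_range.1 hr)]
  rw [h, ← sum_image (f := fun n => |(glue p F).coeff n|)
    (g := fun x : Σ _ : ℕ, ℕ => x.1 + p * x.2) fun x hx y hy e => ?_]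
  · refine sum_le_sum_of_subset_of_nonneg (fun n hn => ?_) fun _ _ _ => abs_nonneg _
    obtain ⟨x, hx, rfl⟩ := mem_image.1 hn
    rw [mem_support_iff, coeff_glue F (mem_range.1 (mem_sigma.1 hx).1)]
    exact mem_support_iff.1 (mem_sigma.1 hx).2
  · have h1 := mem_range.1 (mem_sigma.1 hx).1
    have h2 := mem_range.1 (mem_sigma.1 hy).1
    have h3 := congrArg (· % p) e
    simp only [Nat.add_mul_mod_self_left, Nat.mod_eq_of_lt h1, Nat.mod_eq_of_lt h2] at h3
    simp only [h3, Nat.add_left_cancel_iff] at e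
    exact Sigma.ext h3 (heq_of_eq (Nat.eq_of_mul_eq_mul_left (by omega) e))

theorem mul_glue (g : ℤ[X]) (F : ℕ → ℤ[X]) :
    expand ℤ p g * glue p F = glue p fun r => g * F r := by
  rw [glue, glue, mul_sum]
  exact sum_congr rfl fun r _ => by rw [map_mul]; ring

theorem dvd_lam_class (r : ℕ) (W V : ℤ[X]) :
    (p : ℤ) ∣ lam (X ^ r * expand ℤ p W) V - V.eval (r : ℤ) * W.eval 1 := by
  induction W using Polynomial.induction_on' with
  | add f g h1 h2 =>
    simp only [mul_add, map_add, LinearMap.add_apply, eval_add, ← sub_add_sub_comm]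
    exact h1.add h2
  | monomial n c =>
    rw [expand_monomial, X_pow_mul_monomial, lam_mono, eval_monomial, one_pow, mul_one, mul_comm _ c,
      ← mul_sub]
    have h : (p : ℤ) ∣ ((n * p + r : ℕ) : ℤ) - r := ⟨n, by push_cast; ring⟩
    exact (h.trans (sub_dvd_eval_sub _ _ V)).mul_left c

end Pool.Agent.Lib.MP_4f0d88_nt.PP
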