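import Pool.Agent.Lib.MP_4f0d88_nt.PP.BT

/-! A prime with a multiple just above `N`. -/

set_option autoImplicit false

namespace Pool.Agent.Lib.MP_4f0d88_nt.PP

open Finset Filter

theorem pow_le_choose_add {x y R : ℕ} (hy : 0 < y) (h : R * y ≤ x) : R ^ y ≤ (x + y).choose y := by
  have h1 := Nat.pow_sub_le_descFactorial (x + y) y
  rw [Nat.descFactorial_eq_factorial_mul_choose, show x + y + 1 - y = x + 1 by omega] at h1
  refine Nat.le_of_mul_le_mul_left (c := y ^ y) ?_ (by positivity)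
  calc y ^ y * R ^ y = (R * y) ^ y := by rw [mul_pow, mul_comm]
    _ ≤ (x + 1) ^ y := Nat.pow_le_pow_left (by omega) y
    _ ≤ _ := h1.trans (Nat.mul_le_mul_right _ (Nat.factorial_le_pow y))

theorem sum_inv_Ioc {a b : ℕ} (h : a ≤ b) :
    ∑ s ∈ Ioc a b, (s : ℝ)⁻¹ ≤ 1 + Real.log b - Real.log (a + 1) := by
  have h1 := harmonic_le_one_add_log b
  have h2 := log_add_one_le_harmonic a
  rw [harmonic_eq_sum_Icc, show Icc 1 b = Ioc 0 b from rfl] at h1
  rw [harmonic_eq_sum_Icc, show Icc 1 a = Ioc 0 a from rfl] at h2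
  push_cast at h1 h2
  rw [← sum_Ioc_consecutive _ (Nat.zero_le a) h] at h1
  linarith

theorem large_prime {x R Λ : ℕ} (h1 : R ^ 8 ≤ x) (h2 : x < (R + 1) ^ 8) (hR : 240 ≤ R) (hΛ : 1 ≤ Λ)
    (h3 : 13 + 9 * Real.log (4 * Λ) ≤ Real.log R) :
    ∃ p : ℕ, p.Prime ∧ Λ * (x / R) < p ∧ ∃ n ∈ Ioc x (x + x / R), p ∣ n := by
  by_contra hc
  push Not at hc
  set y := x / R with hy
  have hR0 : 0 < R := by omega
  have y1 : R * y ≤ x := Nat.mul_div_le x R
  have y2 : x < R * (y + 1) := Nat.lt_mul_div_succ x hR0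
  have y3 : R ^ 7 ≤ y := (Nat.le_div_iff_mul_le hR0).2 (by rw [← pow_succ]; exact h1)
  have y0 : 0 < y := (pow_pos hR0 7).trans_le y3
  have y4 : y ≤ x := Nat.div_le_self x R
  have hR' : (240 : ℝ) ≤ R := by exact_mod_cast hR
  have hy' : (R : ℝ) ^ 7 ≤ y := by exact_mod_cast y3
  have l0 : 1 ≤ Real.log (R + 1) := by
    rw [Real.le_log_iff_exp_le (by positivity)]
    linarith [Real.exp_one_lt_d9]
  have l1 : Real.log (R + 1) ≤ R := by linarith [Real.log_le_sub_one_of_pos (by positivity : (0 : ℝ) < R + 1)]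
  have x9 : x + y ≤ (R + 1) ^ 9 := by rw [pow_succ]; nlinarith
  have l2 : ∀ n : ℕ, n ≤ x + y → Real.log n ≤ 9 * Real.log (R + 1) := fun n hn => by
    rcases Nat.eq_zero_or_pos n with rfl | h
    · simp; linarith
    · have := Real.log_le_log (by exact_mod_cast h : (0 : ℝ) < n)
        (by exact_mod_cast hn.trans x9 : (n : ℝ) ≤ (R + 1) ^ 9)
      rwa [Real.log_pow, Nat.cast_ofNat] at this
  set B := (x + y).choose y with hB
  have b1 : y * Real.log R ≤ Real.log B := by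
    rw [← Real.log_pow]
    exact Real.log_le_log (by positivity) (by exact_mod_cast pow_le_choose_add y0 y1)
  set U := B.primeFactors with hU
  have hU1 : ∀ p ∈ U, p.Prime := fun p hp => Nat.prime_of_mem_primeFactors hp
  have b2 : Real.log B ≤ ∑ p ∈ U.filter (· ≤ 32 * R ^ 4), 9 * Real.log (R + 1) +
      (∑ p ∈ U.filter (· ≤ y), Real.log p + ∑ p ∈ U.filter (y < ·), Real.log p) := by
    rw [Real.log_nat_eq_sum_factorization, Finsupp.sum, Nat.support_factorization, sum_filter,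
      sum_filter, sum_filter, ← sum_add_distrib, ← sum_add_distrib]
    refine sum_le_sum fun p hp => ?_
    have hl := Real.log_natCast_nonneg p
    have e : ((if p ≤ y then Real.log p else 0) + if y < p then Real.log p else 0) = Real.log p := by
      by_cases h : p ≤ y
      · rw [if_pos h, if_neg (by omega), add_zero]
      · rw [if_neg h, if_pos (by omega), zero_add]
    rw [e]
    split_ifs with h
    · have := l2 _ (Nat.pow_factorization_choose_le (p := p) (k := y) (by omega : 0 < x + y))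
      rw [Nat.cast_pow, Real.log_pow] at this
      linarith
    · have h4 : x + y < p ^ 2 := by
        have h5 : (R + 1) ^ 8 ≤ (2 * R) ^ 8 := Nat.pow_le_pow_left (by omega) 8
        have h6 : (32 * R ^ 4) ^ 2 ≤ p ^ 2 := Nat.pow_le_pow_left (by omega) 2
        have h7 : (2 * R) ^ 8 = 256 * R ^ 8 := by ring
        have h8 : (32 * R ^ 4) ^ 2 = 1024 * R ^ 8 := by ring
        omega
      have h9 : (B.factorization p : ℝ) ≤ 1 := by exact_mod_cast Nat.factorization_choose_le_one h4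
      nlinarith
  have b3 : ∑ p ∈ U.filter (· ≤ 32 * R ^ 4), 9 * Real.log (R + 1) ≤ 32 * R ^ 4 * (9 * R) := by
    rw [sum_const, nsmul_eq_mul]
    refine mul_le_mul ?_ (by linarith) (by linarith) (by positivity)
    have : #(U.filter (· ≤ 32 * R ^ 4)) ≤ #(Ioc 0 (32 * R ^ 4)) := card_le_card fun p hp =>
      mem_Ioc.2 ⟨(hU1 p (mem_filter.1 hp).1).pos, (mem_filter.1 hp).2⟩
    rw [Nat.card_Ioc, Nat.sub_zero] at this
    exact_mod_cast this
  have b4 : ∑ p ∈ U.filter (· ≤ y), Real.log p ≤ 2 * y := by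
    have h4 := Chebyshev.theta_le_log4_mul_x (x := y) (by positivity)
    rw [Chebyshev.theta, Nat.floor_natCast] at h4
    have h5 : Real.log 4 ≤ 2 := by
      rw [show (4 : ℝ) = 2 ^ 2 by norm_num, Real.log_pow]
      have := Real.log_two_lt_d9
      push_cast
      linarith
    refine le_trans (sum_le_sum_of_subset_of_nonneg (fun p hp => ?_)
      fun p _ _ => Real.log_natCast_nonneg p) (h4.trans (by gcongr))
    have := hU1 p (mem_filter.1 hp).1
    exact mem_filter.2 ⟨mem_Ioc.2 ⟨this.pos, (mem_filter.1 hp).2⟩, this⟩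
  have b5 : ∀ p ∈ U.filter (y < ·), p ≤ x + y ∧ p ∈ (Ioc (R / Λ) (4 * R)).biUnion
      fun s => {p ∈ Ioc (x / s) (x / s + (y / s + 1)) | p.Prime} := fun p hp => by
    obtain ⟨hp1, hp2⟩ := mem_filter.1 hp
    have hp3 := hU1 p hp1
    have hd : p ∣ (x + y).descFactorial y := by
      rw [Nat.descFactorial_eq_factorial_mul_choose]
      exact (Nat.dvd_of_mem_primeFactors hp1).mul_left _
    rw [Nat.descFactorial_eq_prod_range] at hd
    obtain ⟨i, hi, s, hs⟩ := hp3.prime.exists_mem_finset_dvd hd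
    have hi' := mem_range.1 hi
    have n1 : x < p * s := by omega
    have n2 : p * s ≤ x + y := by omega
    have n3 : p ≤ Λ * y := by
      by_contra h
      exact hc p hp3 (by omega) _ (mem_Ioc.2 ⟨n1, n2⟩) (dvd_mul_right p s)
    have s0 : 0 < s := Nat.pos_of_mul_pos_left (by omega : 0 < p * s)
    refine ⟨(Nat.le_mul_of_pos_right p s0).trans n2, mem_biUnion.2 ⟨s, mem_Ioc.2 ⟨?_, ?_⟩,
      mem_filter.2 ⟨mem_Ioc.2 ⟨(Nat.div_lt_iff_lt_mul s0).2 n1, ?_⟩, hp3⟩⟩⟩
    · rw [Nat.div_lt_iff_lt_mul hΛ]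
      refine Nat.lt_of_mul_lt_mul_right (a := y) ?_
      calc R * y < p * s := by omega
        _ ≤ Λ * y * s := Nat.mul_le_mul_right s n3
        _ = s * Λ * y := by ring
    · refine Nat.le_of_mul_le_mul_left (c := p) ?_ hp3.pos
      have : R * (y + 1) ≤ R * p := Nat.mul_le_mul_left R hp2
      nlinarith
    · have := Nat.add_div_le_div_add_div_add_one x y s
      have := (Nat.le_div_iff_mul_le s0).2 n2
      omega
  have b6 : ∑ p ∈ U.filter (y < ·), Real.log p ≤
      ∑ s ∈ Ioc (R / Λ) (4 * R), (9 * y * (s : ℝ)⁻¹ + 10 * R ^ 5) := by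
    refine (sum_le_card_nsmul _ _ _ fun p hp => l2 p (b5 p hp).1).trans ?_
    have h4 := (card_le_card fun p hp => (b5 p hp).2).trans card_biUnion_le
    rw [nsmul_eq_mul]
    refine (mul_le_mul_of_nonneg_right (Nat.cast_le.2 h4) (by linarith)).trans ?_
    rw [Nat.cast_sum, sum_mul]
    refine sum_le_sum fun s hs => ?_
    obtain ⟨s1, s2⟩ := mem_Ioc.1 hs
    have s0 : 0 < s := (Nat.zero_le _).trans_lt s1
    have h5 := primes_Ioc (x / s) (y / s + 1) R hR0 ((Nat.le_div_iff_mul_le s0).2 (by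
      have : R ^ 3 ≤ R ^ 8 := Nat.pow_le_pow_right hR0 (by norm_num)
      have : R * s ≤ R * (R * R) := Nat.mul_le_mul_left R (by nlinarith)
      nlinarith))
    refine (mul_le_mul_of_nonneg_right h5 (by linarith)).trans ?_
    have h6 : ((y / s : ℕ) : ℝ) ≤ y * (s : ℝ)⁻¹ := Nat.cast_div_le
    have h7 : (R : ℝ) ^ 4 * Real.log (R + 1) ≤ R ^ 4 * R := by gcongr
    have h8 : (9 : ℝ) ≤ R ^ 5 := le_trans (by linarith) (le_self_pow₀ (by linarith) (by norm_num))
    rw [add_mul, div_mul_eq_mul_div, ← mul_assoc, mul_div_assoc, div_self (by linarith)]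
    push_cast
    nlinarith
  have hΛ' : (1 : ℝ) ≤ Λ := by exact_mod_cast hΛ
  have b7 : ∑ s ∈ Ioc (R / Λ) (4 * R), (s : ℝ)⁻¹ ≤ 1 + Real.log (4 * Λ) := by
    refine (sum_inv_Ioc ((Nat.div_le_self R Λ).trans (by omega))).trans ?_
    have h4 : (R : ℝ) ≤ Λ * ((R / Λ : ℕ) + 1) := by exact_mod_cast (Nat.lt_mul_div_succ R hΛ).le
    have h5 := Real.log_le_log (by positivity) (mul_le_mul_of_nonneg_left h4 (by norm_num : (0 : ℝ) ≤ 4))
    rw [← mul_assoc, Real.log_mul (x := 4 * Λ) (by positivity) (by positivity)] at h5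
    push_cast
    linarith
  have b8 : (#(Ioc (R / Λ) (4 * R)) : ℝ) ≤ 4 * R := by
    rw [Nat.card_Ioc]
    exact_mod_cast Nat.sub_le _ _
  rw [sum_add_distrib, ← mul_sum, sum_const, nsmul_eq_mul] at b6
  have b9 := mul_le_mul_of_nonneg_left b7 (by positivity : (0 : ℝ) ≤ 9 * y)
  have c1 := mul_le_mul_of_nonneg_right b8 (by positivity : (0 : ℝ) ≤ 10 * R ^ 5)
  have c2 := mul_le_mul_of_nonneg_left h3 (by positivity : (0 : ℝ) ≤ y)
  have c3 : (R : ℝ) ^ 5 * 240 ≤ R ^ 5 * R := by gcongr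
  have c4 : (R : ℝ) ^ 6 * 240 ≤ R ^ 6 * R := by gcongr
  have c5 : (0 : ℝ) < R ^ 6 := by positivity
  nlinarith

theorem exists_root (x : ℕ) : ∃ R : ℕ, R ^ 8 ≤ x ∧ x < (R + 1) ^ 8 := by
  induction x with
  | zero => exact ⟨0, by simp⟩
  | succ x ih =>
    obtain ⟨R, h1, h2⟩ := ih
    by_cases h : x + 1 < (R + 1) ^ 8
    · exact ⟨R, by omega, h⟩
    · have : (R + 1) ^ 8 < (R + 1 + 1) ^ 8 := Nat.pow_lt_pow_left (by omega) (by norm_num)
      exact ⟨R + 1, by omega, by omega⟩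

theorem exists_prime (C : ℝ) : ∃ N₀ : ℕ, ∀ N ≥ N₀, ∃ p G w : ℕ, p.Prime ∧ N + w = G * p ∧
    C * Real.log N ^ 2 ≤ G ∧ 32 * G ≤ p ∧ C * Real.log N ^ 2 * w ≤ p := by
  set c := max C 1 with hc
  have c1 : 1 ≤ c := le_max_right _ _
  have e1 : ∀ᶠ t : ℝ in atTop, 1 ≤ t ∧ 16 * (300 + 19 * Real.log (2 * c)) ≤ t ∧
      ‖Real.log t‖ ≤ 1 / 1000 * ‖t‖ := (eventually_ge_atTop _).and ((eventually_ge_atTop _).and
    (Real.isLittleO_log_id_atTop.bound (by norm_num)))
  obtain ⟨N₀, hN₀⟩ := eventually_atTop.1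
    (((Real.tendsto_log_atTop.comp tendsto_natCast_atTop_atTop).eventually e1).and
      (eventually_gt_atTop 0))
  refine ⟨N₀, fun N hN => ?_⟩
  obtain ⟨⟨t1, t2, t3⟩, N0⟩ := hN₀ N hN
  simp only [Function.comp] at t1 t2 t3
  set t := Real.log N with ht
  rw [Real.norm_of_nonneg (Real.log_nonneg t1), Real.norm_of_nonneg (by linarith)] at t3
  set S := ⌈c * t ^ 2⌉₊ with hS
  have t4 : 1 ≤ c * t ^ 2 := one_le_mul_of_one_le_of_one_le c1 (one_le_pow₀ t1)
  have S1 : c * t ^ 2 ≤ S := Nat.le_ceil _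
  have S2 : (S : ℝ) ≤ 2 * c * t ^ 2 := by linarith [Nat.ceil_lt_add_one (by linarith : 0 ≤ c * t ^ 2)]
  have S3 : (1 : ℝ) ≤ S := t4.trans S1
  have S0 : 0 < S := by exact_mod_cast zero_lt_one.trans_le S3
  have S4 : Real.log S ≤ Real.log (2 * c) + 2 * Real.log t := by
    have := Real.log_le_log (by linarith) S2
    rwa [Real.log_mul (by linarith) (by positivity), Real.log_pow, Nat.cast_ofNat] at this
  have S5 := Real.log_nonneg S3
  obtain ⟨R, r1, r2⟩ := exists_root (N / S)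
  set x := N / S with hx
  have x1 : S * x ≤ N := Nat.mul_div_le N S
  have x2 : N < S * (x + 1) := Nat.lt_mul_div_succ N S0
  have x3 : N ≤ S * (R + 1) ^ 8 := x2.le.trans (Nat.mul_le_mul_left S r2)
  have r3 : t ≤ Real.log S + 8 * Real.log (R + 1) := by
    have := Real.log_le_log (by exact_mod_cast N0 : (0 : ℝ) < N)
      (by exact_mod_cast x3 : (N : ℝ) ≤ S * (R + 1) ^ 8)
    rwa [Real.log_mul (by linarith) (by positivity), Real.log_pow, Nat.cast_ofNat] at this
  have l2 := Real.log_two_lt_d9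
  have lc : 0 ≤ Real.log (2 * c) := Real.log_nonneg (by linarith)
  have r4 : 241 + 18 * Real.log S + 30 ≤ Real.log (R + 1) := by linarith
  have r5 : (240 : ℝ) ≤ R := by
    linarith [Real.log_le_sub_one_of_pos (by positivity : (0 : ℝ) < R + 1)]
  have r6 : Real.log (R + 1) ≤ Real.log 2 + Real.log R := by
    rw [← Real.log_mul (by norm_num) (by linarith)]
    exact Real.log_le_log (by positivity) (by linarith)
  have r7 : S ≤ R := by
    have : Real.log S ≤ Real.log R := by linarith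
    exact_mod_cast (Real.log_le_log_iff (by linarith) (by linarith)).1 this
  have r8 : 240 ≤ R := by exact_mod_cast r5
  obtain ⟨p, hp, p1, n, hn, s, hs⟩ := large_prime (Λ := S * S) r1 r2 r8 (Nat.mul_pos S0 S0) (by
    push_cast
    rw [Real.log_mul (by norm_num) (by positivity), Real.log_mul (by linarith) (by linarith),
      show (4 : ℝ) = 2 ^ 2 by norm_num, Real.log_pow]
    push_cast
    linarith)
  obtain ⟨n1, n2⟩ := mem_Ioc.1 hn
  set y := x / R with hy
  have y3 : R ^ 7 ≤ y := (Nat.le_div_iff_mul_le (by omega)).2 (by rw [← pow_succ]; exact r1)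
  have y4 : y ≤ x := Nat.div_le_self x R
  have s0 : 0 < s := Nat.pos_of_mul_pos_left (by omega : 0 < p * s)
  have g1 : S * (x + 1) ≤ S * n := Nat.mul_le_mul_left S n1
  have g2 : S * n ≤ S * x + S * y := by rw [← mul_add]; exact Nat.mul_le_mul_left S n2
  have g3 : S * n = S * s * p := by rw [hs]; ring
  have hC : C * t ^ 2 ≤ S := (mul_le_mul_of_nonneg_right (le_max_left _ _) (sq_nonneg t)).trans S1
  refine ⟨p, S * s, S * n - N, hp, by omega, hC.trans ?_, ?_, ?_⟩
  · exact_mod_cast Nat.le_mul_of_pos_right S s0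
  · have p2 : R ^ 7 ≤ p := y3.trans ((Nat.le_mul_of_pos_left y (Nat.mul_pos S0 S0)).trans p1.le)
    refine Nat.le_of_mul_le_mul_right (c := p) ?_ hp.pos
    have h5 : (R + 1) ^ 8 ≤ (2 * R) ^ 8 := Nat.pow_le_pow_left (by omega) 8
    have h6 : 240 ^ 5 ≤ R ^ 5 := Nat.pow_le_pow_left r8 5
    calc 32 * (S * s) * p = 32 * (S * n) := by rw [g3]; ring
      _ ≤ 32 * (R * (2 * (2 * R) ^ 8)) := Nat.mul_le_mul_left _ (Nat.mul_le_mul r7 (by omega))
      _ = 16384 * R ^ 9 := by ring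
      _ ≤ R ^ 5 * R ^ 9 := Nat.mul_le_mul_right _ (by omega)
      _ = R ^ 7 * R ^ 7 := by ring
      _ ≤ p * p := Nat.mul_le_mul p2 p2
  · refine (mul_le_mul_of_nonneg_right hC (Nat.cast_nonneg _)).trans ?_
    have : S * (S * n - N) ≤ S * (S * y) := Nat.mul_le_mul_left S (by omega)
    exact_mod_cast this.trans (by rw [← mul_assoc]; exact p1.le)

end Pool.Agent.Lib.MP_4f0d88_nt.PP
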