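import Pool.Agent.Lib.MP_4f0d88_nt.PP.Loc
import Pool.Agent.Lib.MP_4f0d88_nt.PP.An
import Pool.Agent.Lib.MP_4f0d88_nt.PP.Pr

/-! The lower bound for the length of a pure product. -/

set_option autoImplicit false

namespace Pool.Agent.Lib.MP_4f0d88_nt.PP

open Polynomial Finset

variable {ι : Type} [Fintype ι] [DecidableEq ι] {a : ι → ℕ} {p G w N : ℕ}

omit [Fintype ι] [DecidableEq ι] in
theorem expand_pp {I : Finset ι} (h : ∀ i ∈ I, p ∣ a i) :
    expand ℤ p (pp I fun i => a i / p) = pp I a := by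
  rw [pp, map_prod]
  exact prod_congr rfl fun i hi => by
    rw [map_sub, map_one, map_pow, expand_X, ← pow_mul, Nat.mul_div_cancel' (h i hi)]

theorem l1_expand (hp : 0 < p) (f : ℤ[X]) : l1 f ≤ l1 (expand ℤ p f) := by
  have h := l1_glue (p := p) fun r => if r = 0 then f else 0
  rw [glue, sum_eq_single_of_mem 0 (mem_range.2 hp) fun r _ h => by simp [h, l1],
    sum_eq_single_of_mem 0 (mem_range.2 hp) fun r _ h => by simp [h]] at h
  simpa using h

theorem arith1 {m S g : ℕ} {l : ℤ} (hsum : m + S = N) (hS : 0 < S) (hw : N + w = (g + 1) * p)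
    (hg : 4 ≤ g) (hw' : w ≤ p) (hm : 4 * (g + 1) ≤ m)
    (L1 : 2 * (m : ℤ) * (S + 1) ≤ l * ((S / p : ℕ) + 1)) : 3 * (N : ℤ) ≤ l := by
  have hgp := Nat.mul_le_mul_right p hg
  rw [add_mul, one_mul] at hw
  rcases lt_or_ge S p with h | h
  · rw [Nat.div_eq_of_lt h, Nat.cast_zero, zero_add, mul_one] at L1
    have : 2 * (m : ℤ) * (1 + 1) ≤ 2 * m * (S + 1) := by gcongr; exact_mod_cast hS
    omega
  · by_contra hc
    have h1 : (((S / p : ℕ) : ℤ) + 1) * p ≤ 2 * (S + 1) := by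
      have := Nat.div_mul_le_self S p
      rw [add_mul, ← Nat.cast_mul]
      omega
    have h2 : (m : ℤ) * p * (2 * (S + 1)) ≤ 3 * N * (2 * (S + 1)) :=
      calc (m : ℤ) * p * (2 * (S + 1)) = 2 * m * (S + 1) * p := by ring
        _ ≤ l * (((S / p : ℕ) : ℤ) + 1) * p := by gcongr
        _ ≤ 3 * N * (((S / p : ℕ) : ℤ) + 1) * p := by gcongr; exact (not_le.1 hc).le
        _ ≤ _ := by rw [mul_assoc]; gcongr
    have h4 := le_of_mul_le_mul_right h2 (by positivity)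
    have h5 := Nat.mul_le_mul_right p hm
    rw [mul_assoc, add_mul, one_mul] at h5
    rw [← Nat.cast_mul] at h4
    omega

theorem arith2 {m S g : ℕ} {l : ℤ} {Y : ℝ} (hsum : m + S = N) (hw : N + w = (g + 1) * p)
    (hY : 1 ≤ Y) (hG : 3072 * Y ≤ (g + 1 : ℕ)) (h32 : 32 * (g + 1) ≤ p) (hs : 3072 * Y * w ≤ p)
    (hg : 4 ≤ g) (hw' : 8 * w ≤ p) (hm : m < 4 * (g + 1))
    (hA : (S : ℝ) ≤ 8 * p * (2 ^ 2 * Y) * (1 + 6 * m))
    (L2 : 0 < m → m + S / p < p → 2 * ((S % p : ℕ) + 1 : ℤ) * (m + (S / p : ℕ)) ≤ l) :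
    2 * N + 1 / 1536 * N / Y ≤ (l : ℝ) := by
  have hgp := Nat.mul_le_mul_right p hg
  have hp : (0 : ℝ) < p := by exact_mod_cast (by omega : 0 < p)
  have h1 : (g + 1) * p ≤ 2 * S := by rw [add_mul, one_mul] at hw ⊢; omega
  have h2 : (g + 1 : ℝ) ≤ 64 * Y * (1 + 6 * m) := by
    have : (g + 1 : ℝ) * p ≤ 2 * S := by exact_mod_cast h1
    exact le_of_mul_le_mul_right (by linarith) hp
  push_cast at hG
  have h3 : (g + 1 : ℝ) ≤ 768 * Y * (m - 1) := by linarith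
  have h4 : 0 < m := Nat.pos_of_ne_zero fun h => by
    rw [h, Nat.cast_zero] at h3
    linarith
  obtain ⟨σ, hσ⟩ : ∃ σ, p = σ + w + m := ⟨p - w - m, by omega⟩
  have h5 : S = σ + p * g := by rw [add_mul, one_mul, mul_comm] at hw; omega
  have h6 : S / p = g := by
    rw [h5, Nat.add_mul_div_left _ _ (by omega), Nat.div_eq_of_lt (by omega), zero_add]
  have h7 : S % p = σ := by rw [h5, Nat.add_mul_mod_self_left, Nat.mod_eq_of_lt (by omega)]
  rw [h6, h7] at L2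
  have h8 : 2 * (σ + 1 : ℝ) * (m + g) ≤ l := by exact_mod_cast L2 h4 (by omega)
  have h9 : (p : ℝ) ≤ 2 * (σ - g) := by
    have : p + 2 * g ≤ 2 * σ := by omega
    have : (p : ℝ) + 2 * g ≤ 2 * σ := by exact_mod_cast this
    linarith
  have e1 : (N : ℝ) + w = (g + 1) * p := by exact_mod_cast hw
  have e2 : (p : ℝ) = σ + w + m := by exact_mod_cast hσ
  have e3 : (σ + 1 : ℝ) * (m + g) = N + ((m - 1) * (σ - g) - g * w) := by
    rw [eq_sub_of_add_eq e1, e2]
    ring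
  have h10 : (g + 1 : ℝ) * p ≤ 768 * Y * (m - 1) * (2 * (σ - g)) :=
    mul_le_mul h3 h9 hp.le (by linarith [(Nat.cast_nonneg g : (0 : ℝ) ≤ g)])
  have h11 : (g : ℝ) * (3072 * Y * w) ≤ (g + 1) * p := by gcongr; linarith
  have h12 : 1 / 1536 * N / Y ≤ 2 * ((m - 1) * (σ - g) - g * w : ℝ) := by
    rw [div_le_iff₀ (by linarith)]
    linarith [(Nat.cast_nonneg w : (0 : ℝ) ≤ w)]
  linarith

theorem core (ha : ∀ i, 0 < a i) (hp : p.Prime) (hN : Fintype.card ι = N) (h9 : 9 ≤ N)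
    (hw : N + w = G * p) (hG : 3072 * Real.log N ^ 2 ≤ G) (h32 : 32 * G ≤ p)
    (hs : 3072 * Real.log N ^ 2 * w ≤ p) (hex : ∃ j, ¬ p ∣ a j) :
    2 * N + 1 / 1536 * N / Real.log N ^ 2 ≤ (l1 (pp univ a) : ℝ) := by
  have hN0 : (9 : ℝ) ≤ N := by exact_mod_cast h9
  have h3 : 1 ≤ Real.log 3 := by
    rw [Real.le_log_iff_exp_le (by norm_num)]
    linarith [Real.exp_one_lt_d9]
  have hl : 2 * Real.log 3 ≤ Real.log N := by
    have := Real.log_le_log (by norm_num) hN0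
    rwa [show (9 : ℝ) = 3 ^ 2 by norm_num, Real.log_pow, Nat.cast_ofNat] at this
  have hX : 1 ≤ Real.log N ^ 2 := one_le_pow₀ (by linarith)
  by_contra hc
  have hlt : (l1 (pp univ a) : ℝ) < 3 * N := by
    have : 1 / 1536 * N / Real.log N ^ 2 ≤ (N : ℝ) :=
      (div_le_self (by positivity) hX).trans (by linarith)
    linarith [not_le.1 hc]
  have hG' : 3072 ≤ G := by exact_mod_cast (by linarith : (3072 : ℝ) ≤ G)
  have hw' : 3072 * w ≤ p := by
    have : (3072 : ℝ) * w ≤ 3072 * Real.log N ^ 2 * w := by gcongr; linarith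
    exact_mod_cast this.trans hs
  have hA := analytic a ha hp (by omega) (L := 2 * Real.log N) (by
    have h0 : (0 : ℝ) ≤ l1 (pp univ a) := by exact_mod_cast sum_nonneg fun _ _ => abs_nonneg _
    rcases h0.eq_or_lt with h | h
    · rw [← h, Real.log_zero]
      linarith
    · have := Real.log_le_log h hlt.le
      rw [Real.log_mul (by norm_num) (by linarith)] at this
      linarith) (by rw [hN]; linarith)
  have e : expand ℤ p (pp {j | p ∣ a j} fun i => a i / p) * pp {j | ¬ p ∣ a j} a = pp univ a := by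
    rw [expand_pp fun i hi => (mem_filter.1 hi).2, pp, pp, pp, prod_filter_mul_prod_filter_not]
  have hb : ∀ i ∈ ({j | p ∣ a j} : Finset ι), 0 < a i / p := fun i hi =>
    Nat.div_pos (Nat.le_of_dvd (ha i) (mem_filter.1 hi).2) hp.pos
  have hJ : ∀ j ∈ ({j | ¬ p ∣ a j} : Finset ι), ¬ p ∣ a j := fun j hj => (mem_filter.1 hj).2
  have hsum : #{j | p ∣ a j} + #{j | ¬ p ∣ a j} = N := by
    rw [card_filter_add_card_filter_not, card_univ, hN]
  have hS : 0 < #{j | ¬ p ∣ a j} := card_pos.2 (hex.imp fun j hj => by simpa using hj)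
  have L1 := e ▸ loc1 hp hb hJ (by nlinarith)
  have L2 := fun h1 h2 => e ▸ loc2 hp (hp.odd_of_ne_two (by omega)) hb hJ h1 h2
  rw [mul_pow] at hA
  obtain ⟨g, rfl⟩ : ∃ g, G = g + 1 := ⟨G - 1, by omega⟩
  by_cases hm : 4 * (g + 1) ≤ #{j | p ∣ a j}
  · exact hlt.not_ge (by exact_mod_cast arith1 hsum hS hw (by omega) (by omega) hm L1)
  · exact hc (arith2 hsum hw hX hG h32 hs (by omega) (by omega) (not_le.1 hm) hA L2)

theorem descent (hp : p.Prime) (hN : Fintype.card ι = N) (h9 : 9 ≤ N)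
    (hw : N + w = G * p) (hG : 3072 * Real.log N ^ 2 ≤ G) (h32 : 32 * G ≤ p)
    (hs : 3072 * Real.log N ^ 2 * w ≤ p) (a : ι → ℕ) (ha : ∀ i, 0 < a i) :
    2 * N + 1 / 1536 * N / Real.log N ^ 2 ≤ (l1 (pp univ a) : ℝ) := by
  induction h : ∑ i, a i using Nat.strong_induction_on generalizing a with
  | _ n ih =>
    by_cases hex : ∃ j, ¬ p ∣ a j
    · exact core ha hp hN h9 hw hG h32 hs hex
    have hd : ∀ j, p ∣ a j := fun j => not_not.1 (not_exists.1 hex j)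
    rw [← expand_pp fun i _ => hd i]
    refine (ih _ ?_ _ (fun i => Nat.div_pos (Nat.le_of_dvd (ha i) (hd i)) hp.pos) rfl).trans
      (Int.cast_le.2 (l1_expand hp.pos _))
    exact h ▸ sum_lt_sum_of_nonempty (card_pos.1 (by rw [card_univ]; omega)) fun i _ =>
      Nat.div_lt_self (ha i) hp.one_lt

theorem main : ∃ N₀ : ℕ, ∀ N ≥ N₀, ∀ a : Fin N → ℕ, (∀ i, 0 < a i) →
    2 * N + 1 / 1536 * N / Real.log N ^ 2 ≤ (l1 (pp univ a) : ℝ) := by
  obtain ⟨N₀, h⟩ := exists_prime 3072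
  refine ⟨max N₀ 9, fun N hN => ?_⟩
  obtain ⟨p, G, w, hp, hw, hG, h32, hs⟩ := h N (le_of_max_le_left hN)
  exact descent hp (Fintype.card_fin N) (le_of_max_le_right hN) hw hG h32 hs

end Pool.Agent.Lib.MP_4f0d88_nt.PP
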