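import Pool.Agent.Lib.MP_4f0d88_nt.PP.Df

/-! The residue classes of the exponents of a pure product modulo a prime. -/

set_option autoImplicit false

namespace Pool.Agent.Lib.MP_4f0d88_nt.PP

open Polynomial Finset

variable {ι : Type} [DecidableEq ι] {I J : Finset ι} {a b : ι → ℕ} {p : ℕ}

theorem pp_one (k : ℕ) : pp (range k) (fun _ => 1) = (1 - X) ^ k := by simp [pp]

omit [DecidableEq ι] in
theorem pp_ne (hb : ∀ i ∈ I, 0 < b i) : pp I b ≠ 0 :=
  prod_ne_zero_iff.2 fun i hi h => by simpa [(hb i hi).ne'] using congrArg (eval 0) h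

theorem lam_low (I : Finset ι) (b : ι → ℕ) (Z : ℤ[X]) {j : ℕ} (h : j < #I) :
    lam (pp I b * Z) (X ^ j) = 0 := by
  rw [lam_top I b Z (by simpa using h.le), coeff_X_pow, if_neg h.ne', mul_zero, zero_mul]

/-- A monic test polynomial of degree `d` that is divisible by given linear factors. -/
theorem exists_test (T : Finset ℕ) (k d : ℕ) (h : #T * k ≤ d) :
    ∃ φ : ℤ[X], φ.natDegree ≤ d ∧ φ.coeff d = 1 ∧ ∀ r ∈ T, (X - C (r : ℤ)) ^ k ∣ φ := by
  have hm : ∀ r ∈ T, ((X - C (r : ℤ)) ^ k).Monic := fun r _ => (monic_X_sub_C _).pow k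
  have h1 := (monic_X_pow (R := ℤ) (d - #T * k)).mul (monic_prod_of_monic _ _ hm)
  have h2 : (X ^ (d - #T * k) * ∏ r ∈ T, (X - C (r : ℤ)) ^ k).natDegree = d := by
    rw [(monic_X_pow _).natDegree_mul (monic_prod_of_monic _ _ hm), natDegree_prod_of_monic _ _ hm]
    simp only [natDegree_pow, natDegree_X_sub_C, natDegree_X, mul_one, sum_const, smul_eq_mul]
    omega
  exact ⟨_, h2.le, (congrArg _ h2.symm).trans h1.coeff_natDegree, fun r hr => (dvd_prod_of_mem _ hr).mul_left _⟩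

theorem class_ge (hb : ∀ i ∈ I, 0 < b i) {W : ℤ[X]} (hW : W ≠ 0) :
    2 * (#I : ℤ) ≤ l1 (pp I b * W) := by
  rcases Nat.eq_zero_or_pos #I with h0 | h0
  · rw [h0]
    exact sum_nonneg fun _ _ => abs_nonneg _
  have hex : ∃ j, lam (pp I b * W) (X ^ j) ≠ 0 := by
    obtain ⟨Z, e, hZ⟩ := exists_eq_pow_rootMultiplicity_mul_and_not_dvd _
      (mul_ne_zero (pp_ne hb) hW) 1
    generalize rootMultiplicity 1 (pp I b * W) = k at e
    have e' : pp I b * W = pp (range k) (fun _ => 1) * ((-1) ^ k * Z) := by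
      rw [e, pp_one, ← mul_assoc, ← mul_pow, C_1]
      congr 2
      ring
    refine ⟨k, ?_⟩
    rw [e', lam_top _ _ _ (by simp)]
    simpa [Nat.factorial_ne_zero] using fun h => hZ (dvd_iff_isRoot.2 h)
  have h1 : #I ≤ Nat.find hex := (Nat.le_find_iff hex _).2 fun j hj => not_not.2 (lam_low I b W hj)
  refine le_trans (by omega) (l1_ge (K := ℤ) (T := Nat.find hex) _ (fun j hj _ => ?_) ?_
    (fun j _ hj => not_not.1 (Nat.find_min hex hj)) (Nat.find_spec hex))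
  · exact fun _ _ => mul_left_cancel₀ (Nat.cast_ne_zero.2 hj.ne')
  · simpa using lam_low I b W h0

omit [DecidableEq ι] in
theorem not_dvd_prod (hp : p.Prime) (ha : ∀ j ∈ J, ¬ p ∣ a j) : ¬ (p : ℤ) ∣ ∏ j ∈ J, (a j : ℤ) :=
  fun h => by
    obtain ⟨j, hj, h1⟩ := (Nat.prime_iff_prime_int.1 hp).exists_mem_finset_dvd h
    exact ha j hj (Int.natCast_dvd_natCast.1 h1)

theorem loc1 (hp : p.Prime) (hb : ∀ i ∈ I, 0 < b i) (ha : ∀ j ∈ J, ¬ p ∣ a j) (hS : #J < p * p) :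
    2 * (#I : ℤ) * (#J + 1) ≤ l1 (expand ℤ p (pp I b) * pp J a) * ((#J / p : ℕ) + 1) := by
  obtain ⟨F, hF⟩ := exists_glue hp.pos (pp J a)
  set T := {r ∈ range p | F r ≠ 0}
  have h1 : #J + 1 ≤ #T * (#J / p + 1) := by
    by_contra hc
    obtain ⟨φ, h2, h3, h4⟩ := exists_test T (#J / p + 1) #J (by omega)
    have h5 : (p : ℤ) ^ (#J / p + 1) ∣ lam (pp J a) φ := by
      rw [lam_apply]
      refine dvd_sum fun n hn => Dvd.dvd.mul_left ?_ _
      have h6 : n % p ∈ T := mem_filter.2 ⟨mem_range.2 (Nat.mod_lt _ hp.pos), fun h => by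
        rw [mem_support_iff, hF, ← Nat.mod_add_div n p, coeff_glue F (Nat.mod_lt _ hp.pos), h] at hn
        exact hn rfl⟩
      refine (pow_dvd_pow_of_dvd ?_ _).trans (eval_pow (R := ℤ) _ ▸ eval_dvd (h4 _ h6))
      rw [eval_sub, eval_X, eval_C]
      exact Nat.modEq_iff_dvd.1 (Nat.mod_modEq n p)
    have h6 := lam_top J a 1 h2
    rw [mul_one, h3, eval_one, mul_one, mul_one, mul_assoc] at h6
    rw [h6, (isUnit_one.neg.pow _).dvd_mul_left] at h5
    have h7 := (Nat.prime_iff_prime_int.1 hp).pow_dvd_of_dvd_mul_right _ (not_dvd_prod hp ha) h5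
    have h8 := (hp.pow_dvd_factorial_iff (b := 2)
      (Nat.log_lt_of_lt_pow' two_ne_zero (sq p ▸ hS))).1 (by exact_mod_cast h7)
    simp at h8
  have h2 : (#T : ℤ) * (2 * #I) ≤ l1 (expand ℤ p (pp I b) * pp J a) := by
    rw [hF, mul_glue]
    refine le_trans ?_ ((sum_le_sum_of_subset_of_nonneg (filter_subset (fun r => F r ≠ 0) _)
      fun _ _ _ => sum_nonneg fun _ _ => abs_nonneg _).trans (l1_glue _))
    rw [← nsmul_eq_mul]
    exact card_nsmul_le_sum T _ _ fun r hr => class_ge hb (mem_filter.1 hr).2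
  have h3 : (#J : ℤ) + 1 ≤ #T * ((#J / p : ℕ) + 1) := by exact_mod_cast h1
  calc 2 * (#I : ℤ) * (#J + 1) ≤ 2 * #I * (#T * ((#J / p : ℕ) + 1)) := by gcongr
    _ = #T * (2 * #I) * ((#J / p : ℕ) + 1) := by ring
    _ ≤ _ := by gcongr

theorem full_ge (hp : p.Prime) (hb : ∀ i ∈ I, 0 < b i) (hI : 0 < #I) {g : ℕ} (hg : #I + g < p)
    {Z : ℤ[X]} (hZ : ¬ (p : ℤ) ∣ Z.eval 1) (W : ℤ[X]) :
    2 * ((#I + g : ℕ) : ℤ) ≤ l1 (pp I b * ((1 - X) ^ g * Z + C (p : ℤ) * W)) := by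
  have hp' := Nat.prime_iff_prime_int.1 hp
  obtain ⟨v, u, hu, e⟩ := Nat.exists_eq_pow_mul_and_not_dvd
    (prod_pos hb).ne' p hp.ne_one
  have e' : ∏ i ∈ I, (b i : ℤ) = p ^ v * u := by exact_mod_cast e
  have hc := card_range g ▸ card_disjSum I (range g)
  have h1 : ∀ φ, lam (pp I b * ((1 - X) ^ g * Z + C (p : ℤ) * W)) φ =
      lam (pp (I.disjSum (range g)) (Sum.elim b fun _ => 1) * Z) φ + p * lam (pp I b * W) φ := by
    intro φ
    rw [mul_add, map_add, LinearMap.add_apply, mul_left_comm _ (C _), ← smul_eq_C_mul, map_smul,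
      ← mul_assoc]
    simp [pp, prod_disjSum]
  have h2 : ∀ φ, ((p ^ (v + 1) : ℕ) : ℤ) ∣ p * lam (pp I b * W) φ := fun φ => by
    rw [Nat.cast_pow, pow_succ']
    exact mul_dvd_mul_left _ ((Dvd.intro _ e'.symm).trans (dvd_lam I b W φ))
  refine l1_ge (K := ZMod (p ^ (v + 1))) _ (fun j h0 hj => ?_) (by simpa using lam_low I b _ hI)
    (fun j _ hj => ?_) fun h => ?_
  · exact ((ZMod.isUnit_iff_coprime j _).2 (Nat.Coprime.pow_right _
      (Nat.coprime_of_lt_prime h0.ne' (by omega) hp).symm)).isRegular.left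
  · rw [ZMod.intCast_zmod_eq_zero_iff_dvd, h1, lam_low _ _ _ (hc ▸ hj), zero_add]
    exact h2 _
  · rw [ZMod.intCast_zmod_eq_zero_iff_dvd, h1, dvd_add_left (h2 _), lam_top _ _ _ (by simp [hc]),
      hc, prod_disjSum] at h
    simp only [Sum.elim_inl, Sum.elim_inr, Nat.cast_one, prod_const_one, coeff_X_pow, if_true,
      mul_one, mul_assoc, e'] at h
    rw [(isUnit_one.neg.pow _).dvd_mul_left, mul_left_comm, Nat.cast_pow, pow_succ,
      mul_dvd_mul_iff_left (pow_ne_zero _ hp'.ne_zero), hp'.dvd_mul, hp'.dvd_mul,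
      Int.natCast_dvd_natCast, Int.natCast_dvd_natCast, hp.dvd_factorial] at h
    exact h.elim (by omega) fun h => h.elim hu hZ

theorem loc2 (hp : p.Prime) (h2 : Odd p) (hb : ∀ i ∈ I, 0 < b i) (ha : ∀ j ∈ J, ¬ p ∣ a j)
    (hI : 0 < #I) (hS : #I + #J / p < p) :
    2 * ((#J % p : ℕ) + 1 : ℤ) * (#I + (#J / p : ℕ)) ≤ l1 (expand ℤ p (pp I b) * pp J a) := by
  set U : ℤ[X] := ∏ j ∈ J, ∑ i ∈ range (a j), X ^ i with hU
  have h1 : pp J a = (1 - X) ^ #J * U := by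
    rw [pp, hU, ← prod_const, ← prod_mul_distrib]
    exact prod_congr rfl fun j _ => (mul_neg_geom_sum _ _).symm
  have h3 : U.eval 1 = ∏ j ∈ J, (a j : ℤ) := by simp [hU, eval_prod, eval_finsetSum]
  obtain ⟨z, hz⟩ : C (p : ℤ) ∣ ((1 - X) ^ p) ^ (#J / p) - (1 - X ^ p) ^ (#J / p) := by
    refine Dvd.dvd.trans ?_ (sub_dvd_pow_sub_pow _ _ _)
    obtain ⟨z, hz⟩ := exists_add_pow_prime_eq hp (1 : ℤ[X]) (-X)
    refine ⟨1 * -X * z, ?_⟩
    rw [sub_eq_add_neg 1 X, hz, h2.neg_pow, one_pow, eq_intCast]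
    push_cast
    ring
  obtain ⟨F, hF⟩ := exists_glue hp.pos ((1 - X) ^ (#J % p) * U)
  obtain ⟨G, hG⟩ := exists_glue hp.pos (z * ((1 - X) ^ (#J % p) * U))
  have h4 : expand ℤ p (pp I b) * pp J a =
      glue p fun r => pp I b * ((1 - X) ^ (#J / p) * F r + C (p : ℤ) * G r) := by
    have h5 : pp J a = expand ℤ p ((1 - X) ^ (#J / p)) * glue p F +
        expand ℤ p (C (p : ℤ)) * glue p G := by
      rw [← hF, ← hG, h1, expand_C, map_pow, map_sub, map_one, expand_X, ← mul_assoc (C _), ← hz,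
        ← pow_mul, ← add_mul, add_sub_cancel, ← mul_assoc, ← pow_add, Nat.div_add_mod]
    rw [← mul_glue, h5, mul_glue, mul_glue]
    simp only [glue, map_add, mul_add, sum_add_distrib]
  set T := {r ∈ range p | ¬ (p : ℤ) ∣ (F r).eval 1}
  have h5 : #J % p + 1 ≤ #T := by
    by_contra hc
    obtain ⟨φ, h6, h7, h8⟩ := exists_test T 1 (#J % p) (by omega)
    have h9 : (p : ℤ) ∣ lam (glue p F) φ := by
      rw [glue, map_sum, LinearMap.sum_apply]
      refine dvd_sum fun r hr => (dvd_sub_left ?_).1 (dvd_lam_class r (F r) φ)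
      by_cases h : (p : ℤ) ∣ (F r).eval 1
      · exact h.mul_left _
      · rw [dvd_iff_isRoot.1 (pow_one (X - C (r : ℤ)) ▸ h8 r (mem_filter.2 ⟨hr, h⟩)), zero_mul]
        exact dvd_zero _
    rw [← hF, ← pp_one, lam_top _ _ _ (by simpa using h6), card_range, h7, h3] at h9
    simp only [Nat.cast_one, prod_const_one, mul_one, mul_assoc] at h9
    rw [(isUnit_one.neg.pow _).dvd_mul_left, (Nat.prime_iff_prime_int.1 hp).dvd_mul,
      Int.natCast_dvd_natCast, hp.dvd_factorial] at h9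
    exact h9.elim (Nat.mod_lt _ hp.pos).not_ge (not_dvd_prod hp ha)
  have h6 : (#T : ℤ) * (2 * ((#I + #J / p : ℕ) : ℤ)) ≤ l1 (expand ℤ p (pp I b) * pp J a) := by
    rw [h4]
    refine le_trans ?_ ((sum_le_sum_of_subset_of_nonneg
      (filter_subset (fun r => ¬ (p : ℤ) ∣ (F r).eval 1) _)
      fun _ _ _ => sum_nonneg fun _ _ => abs_nonneg _).trans (l1_glue _))
    rw [← nsmul_eq_mul]
    exact card_nsmul_le_sum T _ _ fun r hr => full_ge hp hb hI hS (mem_filter.1 hr).2 _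
  have h7 : ((#J % p : ℕ) : ℤ) + 1 ≤ #T := by exact_mod_cast h5
  refine le_trans ?_ h6
  rw [Nat.cast_add, mul_comm 2, mul_assoc]
  gcongr

end Pool.Agent.Lib.MP_4f0d88_nt.PP
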