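import Pool.Agent.Lib.MP_4f0d88_nt.PP.Defs

/-! Newton's identities give a lower bound for the length. -/

set_option autoImplicit false

namespace Pool.Agent.Lib.MP_4f0d88_nt.PP

open Polynomial Finset

/-- Newton's identity for a finite family. -/
theorem newton_id {K σ : Type} [CommRing K] [Fintype σ] (x : σ → K) (k : ℕ) :
    (k : K) * (univ.val.map x).esymm k = (-1) ^ (k + 1) *
      ∑ a ∈ antidiagonal k with a.1 < k, (-1) ^ a.1 * (univ.val.map x).esymm a.1 * ∑ i, x i ^ a.2 := by
  have h := congrArg (MvPolynomial.aeval x) (MvPolynomial.mul_esymm_eq_sum σ ℤ k)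
  simpa only [map_mul, map_natCast, map_pow, map_neg, map_one, map_sum,
    MvPolynomial.aeval_esymm_eq_multiset_esymm, MvPolynomial.psum, MvPolynomial.aeval_X] using h

theorem newton {K σ τ : Type} [CommRing K] [Fintype σ] [Fintype τ] (x : σ → K) (y : τ → K) {T : ℕ}
    (hu : ∀ j, 0 < j → j < T → IsLeftRegular (j : K))
    (h : ∀ j, 0 < j → j < T → ∑ i, x i ^ j = ∑ i, y i ^ j) (h1 : Fintype.card σ < T)
    (h2 : Fintype.card τ < T) : ∑ i, x i ^ T = ∑ i, y i ^ T := by
  have he : ∀ k < T, (univ.val.map x).esymm k = (univ.val.map y).esymm k := by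
    intro k
    induction k using Nat.strong_induction_on with
    | _ k ih =>
      intro hk
      rcases Nat.eq_zero_or_pos k with rfl | h0
      · simp [Multiset.esymm]
      have e : (k : K) * (univ.val.map x).esymm k = k * (univ.val.map y).esymm k := by
        rw [newton_id, newton_id]
        refine congrArg _ (sum_congr rfl fun a ha => ?_)
        have := mem_antidiagonal.1 (mem_filter.1 ha).1
        have := (mem_filter.1 ha).2
        rw [ih a.1 this (by omega), h a.2 (by omega) (by omega)]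
      exact hu k h0 hk e
  have hz : ∀ s : Multiset K, s.card < T → s.esymm T = 0 := fun s hs => by
    simp [Multiset.esymm, Multiset.powersetCard_eq_empty _ hs]
  have e1 := newton_id x T
  have e2 := newton_id y T
  rw [hz _ (by simpa using h1)] at e1
  rw [hz _ (by simpa using h2), e1] at e2
  have hm : ((0, T) : ℕ × ℕ) ∈ {a ∈ antidiagonal T | a.1 < T} := by simp; omega
  have e3 := ((isUnit_one.neg).pow (T + 1)).mul_left_cancel e2
  rw [← add_sum_erase _ _ hm, ← add_sum_erase _ _ hm] at e3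
  have e4 : ∀ a ∈ ({a ∈ antidiagonal T | a.1 < T} : Finset (ℕ × ℕ)).erase (0, T),
      (-1) ^ a.1 * (univ.val.map x).esymm a.1 * ∑ i, x i ^ a.2 =
        (-1) ^ a.1 * (univ.val.map y).esymm a.1 * ∑ i, y i ^ a.2 := fun a ha => by
    have h5 := mem_filter.1 (mem_of_mem_erase ha)
    have h6 := mem_antidiagonal.1 h5.1
    have h7 : a.1 ≠ 0 := fun h0 => ne_of_mem_erase ha (Prod.ext h0 (by omega))
    rw [he a.1 h5.2, h a.2 (by omega) (by omega)]
  rw [sum_congr rfl e4] at e3
  simpa [Multiset.esymm] using add_right_cancel e3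

/-- The functional attached to the coefficients. -/
noncomputable def lam : ℤ[X] →ₗ[ℤ] ℤ[X] →ₗ[ℤ] ℤ :=
  lsum fun n => LinearMap.toSpanSingleton ℤ _ (leval (n : ℤ))

theorem lam_apply (f φ : ℤ[X]) : lam f φ = ∑ n ∈ f.support, f.coeff n * φ.eval (n : ℤ) := by
  simp [lam, Polynomial.sum, LinearMap.sum_apply]

theorem lam_mono (n : ℕ) (c : ℤ) (φ : ℤ[X]) : lam (monomial n c) φ = c * φ.eval (n : ℤ) := by
  simp [lam]

theorem l1_ge {K : Type} [CommRing K] (f : ℤ[X]) {T : ℕ}
    (hu : ∀ j, 0 < j → j < T → IsLeftRegular (j : K)) (h0 : lam f 1 = 0)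
    (h : ∀ j, 0 < j → j < T → (lam f (X ^ j) : K) = 0) (hT : (lam f (X ^ T) : K) ≠ 0) :
    2 * (T : ℤ) ≤ l1 f := by
  have key : ∀ j, (lam f (X ^ j) : K) =
      ∑ i : Σ n : f.support, Fin (f.coeff n).toNat, ((i.1 : ℕ) : K) ^ j -
        ∑ i : Σ n : f.support, Fin (-f.coeff n).toNat, ((i.1 : ℕ) : K) ^ j := fun j => by
    rw [Fintype.sum_sigma, Fintype.sum_sigma, ← sum_sub_distrib, lam_apply,
      ← sum_coe_sort, Int.cast_sum]
    refine sum_congr rfl fun n _ => ?_
    have := congrArg (Int.cast : ℤ → K) (Int.toNat_sub_toNat_neg (f.coeff n))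
    simp only [Int.cast_sub, Int.cast_natCast] at this
    simp [← sub_mul, this]
  have e1 : (Fintype.card (Σ n : f.support, Fin (f.coeff n).toNat) : ℤ) -
      Fintype.card (Σ n : f.support, Fin (-f.coeff n).toNat) = lam f 1 := by
    rw [Fintype.card_sigma, Fintype.card_sigma, lam_apply, ← sum_coe_sort f.support,
      Nat.cast_sum, Nat.cast_sum, ← sum_sub_distrib]
    exact sum_congr rfl fun n _ => by simp
  have e2 : (Fintype.card (Σ n : f.support, Fin (f.coeff n).toNat) : ℤ) +
      Fintype.card (Σ n : f.support, Fin (-f.coeff n).toNat) = l1 f := by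
    rw [Fintype.card_sigma, Fintype.card_sigma, l1, ← sum_coe_sort f.support,
      Nat.cast_sum, Nat.cast_sum, ← sum_add_distrib]
    refine sum_congr rfl fun n _ => ?_
    rw [Fintype.card_fin, Fintype.card_fin, abs_eq_max_neg]
    omega
  by_contra hc
  refine hT ((key T).trans (sub_eq_zero.2 (newton _ _ hu (fun j h1 h2 => ?_) (by omega) (by omega))))
  exact sub_eq_zero.1 ((key j).symm.trans (h j h1 h2))

end Pool.Agent.Lib.MP_4f0d88_nt.PP
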